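import Pool.Agent.Lib.CIM.Rlz

/-!
# CIM.Abs: absorption of a real number into the conjugacy class of a smooth homeomorphism
-/

set_option autoImplicit false

open Set
open scoped ContDiff Manifold

namespace Pool.Agent.CIM

open Pool.Agent.CIR

variable {n : ℕ}

/-- The smooth homeomorphisms of `X n`: a permutation and a diffeomorphism for every circle. -/
abbrev PD (n : ℕ) := Equiv.Perm (Fin n) × (Fin n → Dif)

/-- The homeomorphism of `X n` given by an element of `PD n`. -/
noncomputable def em (p : PD n) : HX n := mk p.1 fun i => hm (p.2 i)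

theorem em_inj : Function.Injective (em (n := n)) := by
  intro p q h
  refine Prod.ext ?_ ?_
  · rw [← sg_mk p.1 fun i => hm (p.2 i), ← sg_mk q.1 fun i => hm (q.2 i)]
    exact congrArg sg h
  · funext i
    apply hm_inj
    have h1 := cp_mk p.1 fun i => hm (p.2 i)
    have h2 := cp_mk q.1 fun i => hm (q.2 i)
    have h3 : cp (em p) = cp (em q) := by rw [h]
    have h4 : (fun i => hm (p.2 i)) = fun i => hm (q.2 i) := by rw [← h1, ← h2]; exact h3
    exact congrFun h4 i

theorem measurable_em : Measurable (em (n := n)) :=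
  measurable_mk measurable_fst fun i => measurable_hm.comp ((measurable_pi_apply i).comp measurable_snd)

/-- Does `f` move a point? -/
def Mv (f : Dif) : Prop := ∃ z, f z ≠ z

theorem mv_iff (f : Dif) : Mv f ↔ hm f ≠ 1 := by
  constructor
  · rintro ⟨z, hz⟩ h
    apply hz
    rw [← hm_coe, h]
    rfl
  · intro h
    by_contra hc
    apply h
    refine Homeomorph.ext fun z => ?_
    by_contra hz
    exact hc ⟨z, hz⟩

theorem measurableSet_mv : MeasurableSet {f : Dif | Mv f} := by
  have h1 : {f : Dif | Mv f} = (hm ⁻¹' {1})ᶜ := by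
    ext f
    exact mv_iff f
  rw [h1]
  have := polishSpace
  exact (measurable_hm (measurableSet_singleton (1 : H))).compl

open Classical in
/-- The discrete data which decide the coding. -/
noncomputable def kp (p : PD n) : Equiv.Perm (Fin n) × (Fin n → Bool) :=
  (p.1, fun i => decide (p.1 i = i ∧ Mv (p.2 i)))

open Classical in
/-- The choice of the place of the code. -/
noncomputable def sl (k : Equiv.Perm (Fin n) × (Fin n → Bool)) : Option (Fin n ⊕ Fin n × Fin n) :=
  if h : ∃ i, k.2 i = true then some (Sum.inl h.choose)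
  else if h : ∃ i, k.1 i ≠ i then some (Sum.inr (h.choose, k.1⁻¹ h.choose)) else none

/-- The coding. -/
noncomputable def cF (enc : Dif → ℝ → Dif) (s : Option (Fin n ⊕ Fin n × Fin n)) (p : PD n) (w : ℝ) : PD n :=
  match s with
  | some (Sum.inl a) => (p.1, Function.update p.2 a (enc (p.2 a) w))
  | some (Sum.inr (b, b')) => (p.1, Function.update (Function.update p.2 b
      ((mulC ((p.2 b).symm (cay w))).trans (p.2 b))) b' ((p.2 b').trans (mulC ((p.2 b).symm (cay w))⁻¹)))
  | none => p

/-- The decoding. -/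
noncomputable def dF (s : Option (Fin n ⊕ Fin n × Fin n)) (p : PD n) : ℝ :=
  match s with
  | some (Sum.inl a) => acay (p.2 a 1)
  | some (Sum.inr (b, _)) => acay (p.2 b 1)
  | none => 0

theorem kp_fst (p : PD n) : (kp p).1 = p.1 := rfl

theorem kp_snd (p : PD n) (i : Fin n) : (kp p).2 i = true ↔ p.1 i = i ∧ Mv (p.2 i) := by
  classical
  unfold kp
  simp only [decide_eq_true_eq]

theorem sl_inl {p : PD n} {a : Fin n} (h : sl (kp p) = some (Sum.inl a)) : p.1 a = a ∧ Mv (p.2 a) := by
  classical
  unfold sl at h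
  by_cases h1 : ∃ i, (kp p).2 i = true
  · rw [dif_pos h1] at h
    have h2 := h1.choose_spec
    have h3 : h1.choose = a := Sum.inl.inj (Option.some.inj h)
    rw [h3] at h2
    exact (kp_snd p a).1 h2
  · rw [dif_neg h1] at h
    by_cases h2 : ∃ i, (kp p).1 i ≠ i
    · rw [dif_pos h2] at h
      exact absurd (Option.some.inj h) (by simp)
    · rw [dif_neg h2] at h
      exact absurd h (by simp)

theorem sl_inr {p : PD n} {b b' : Fin n} (h : sl (kp p) = some (Sum.inr (b, b'))) :
    p.1 b ≠ b ∧ b' = p.1⁻¹ b ∧ ∀ i, ¬ (p.1 i = i ∧ Mv (p.2 i)) := by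
  classical
  unfold sl at h
  by_cases h1 : ∃ i, (kp p).2 i = true
  · rw [dif_pos h1] at h
    exact absurd (Option.some.inj h) (by simp)
  · rw [dif_neg h1] at h
    by_cases h2 : ∃ i, (kp p).1 i ≠ i
    · rw [dif_pos h2] at h
      have h3 := Sum.inr.inj (Option.some.inj h)
      have h4 := h2.choose_spec
      have h5 : h2.choose = b := (Prod.ext_iff.1 h3).1
      have h6 : (kp p).1⁻¹ h2.choose = b' := (Prod.ext_iff.1 h3).2
      rw [h5] at h4 h6
      exact ⟨h4, h6.symm, fun i hi => h1 ⟨i, (kp_snd p i).2 hi⟩⟩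
    · rw [dif_neg h2] at h
      exact absurd h (by simp)

theorem sl_none {p : PD n} (h : sl (kp p) = none) : em p = 1 := by
  classical
  unfold sl at h
  by_cases h1 : ∃ i, (kp p).2 i = true
  · rw [dif_pos h1] at h
    exact absurd h (by simp)
  · rw [dif_neg h1] at h
    by_cases h2 : ∃ i, (kp p).1 i ≠ i
    · rw [dif_pos h2] at h
      exact absurd h (by simp)
    · push Not at h1 h2
      have h3 : p.1 = 1 := Equiv.ext h2
      have h4 : ∀ i, hm (p.2 i) = 1 := by
        intro i
        by_contra hc
        have h5 := (kp_snd p i).2 ⟨h2 i, (mv_iff _).2 hc⟩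
        have h6 := h1 i
        rw [h5] at h6
        exact absurd h6 (by simp)
      apply ext_hx
      · unfold em
        rw [sg_mk, sg_one, h3]
      · intro i
        unfold em
        rw [cp_mk, cp_one, h4]

/-- The code does not change the discrete data. -/
theorem kp_cF {enc : Dif → ℝ → Dif} (he : ∀ f : Dif, (∃ z, f z ≠ z) → ∀ w : ℝ, Cj f (enc f w) ∧ enc f w 1 = cay w)
    (p : PD n) (w : ℝ) : kp (cF enc (sl (kp p)) p w) = kp p := by
  classical
  rcases h : sl (kp p) with _ | a | ⟨b, b'⟩
  · rfl
  · obtain ⟨h1, h2⟩ := sl_inl h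
    refine Prod.ext rfl ?_
    funext i
    rw [Bool.eq_iff_iff, kp_snd, kp_snd]
    show p.1 i = i ∧ Mv (Function.update p.2 a (enc (p.2 a) w) i) ↔ _
    by_cases hi : i = a
    · rw [hi, Function.update_self]
      have h3 : Mv (enc (p.2 a) w) := ⟨1, by rw [(he _ h2 w).2]; exact cay_ne_one w⟩
      tauto
    · rw [Function.update_of_ne hi]
  · obtain ⟨h1, h2, h3⟩ := sl_inr h
    refine Prod.ext rfl ?_
    funext i
    rw [Bool.eq_iff_iff, kp_snd, kp_snd]
    show p.1 i = i ∧ Mv (Function.update (Function.update p.2 b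
      ((mulC ((p.2 b).symm (cay w))).trans (p.2 b))) b' ((p.2 b').trans (mulC ((p.2 b).symm (cay w))⁻¹)) i) ↔ _
    by_cases hi : p.1 i = i
    · have h4 : i ≠ b := fun h4 => h1 (by rw [← h4]; exact hi)
      have h5 : i ≠ b' := by
        intro h5
        apply h1
        have h6 : p.1 i = b := by rw [h5, h2]; exact p.1.apply_symm_apply b
        rw [← h6, hi, hi]
      rw [Function.update_of_ne h5, Function.update_of_ne h4]
    · exact ⟨fun h4 => absurd h4.1 hi, fun h4 => absurd h4.1 hi⟩

theorem dF_cF {enc : Dif → ℝ → Dif} (he : ∀ f : Dif, (∃ z, f z ≠ z) → ∀ w : ℝ, Cj f (enc f w) ∧ enc f w 1 = cay w)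
    {p : PD n} (hp : em p ≠ 1) (w : ℝ) : dF (sl (kp (cF enc (sl (kp p)) p w))) (cF enc (sl (kp p)) p w) = w := by
  rw [kp_cF he]
  rcases h : sl (kp p) with _ | a | ⟨b, b'⟩
  · exact absurd (sl_none h) hp
  · obtain ⟨h1, h2⟩ := sl_inl h
    show acay (Function.update p.2 a (enc (p.2 a) w) a 1) = w
    rw [Function.update_self, (he _ h2 w).2, acay_cay]
  · obtain ⟨h1, h2, h3⟩ := sl_inr h
    have h4 : b ≠ b' := by
      intro h4
      apply h1
      rw [h2] at h4
      conv_lhs => rw [h4]
      exact p.1.apply_symm_apply b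
    show acay (Function.update (Function.update p.2 b
      ((mulC ((p.2 b).symm (cay w))).trans (p.2 b))) b' ((p.2 b').trans (mulC ((p.2 b).symm (cay w))⁻¹)) b 1) = w
    rw [Function.update_of_ne h4, Function.update_self]
    show acay (p.2 b (mulC ((p.2 b).symm (cay w)) 1)) = w
    rw [mulC_apply, mul_one]
    have h5 : p.2 b ((p.2 b).symm (cay w)) = cay w := (p.2 b).apply_symm_apply (cay w)
    rw [h5, acay_cay]

/-- The multiplication as a homeomorphism. -/
theorem hm_mulC_inv (c : Circle) : hm (mulC c⁻¹) = (hm (mulC c))⁻¹ := by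
  refine Homeomorph.ext fun z => ?_
  rfl

theorem hm_trans (f g : Dif) : hm (f.trans g) = hm g * hm f := rfl

theorem conj_cp (p : PD n) (χ : Fin n → H) (q : PD n) (hq : q.1 = p.1)
    (h : ∀ i, χ (p.1 i) * hm (p.2 i) * (χ i)⁻¹ = hm (q.2 i)) : mk 1 χ * em p * (mk 1 χ)⁻¹ = em q := by
  apply ext_hx
  · rw [sg_mul, sg_mul, sg_inv, sg_mk]
    unfold em
    rw [sg_mk, sg_mk, hq]
    simp
  · intro i
    have h1 : sg (mk 1 χ)⁻¹ i = i := by rw [sg_inv, sg_mk]; rfl
    have h2 : cp (mk 1 χ)⁻¹ i = (χ i)⁻¹ := by
      have h3 := cp_inv (mk 1 χ) i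
      rw [sg_mk, cp_mk] at h3
      exact h3
    rw [cp_mul, cp_mul, h1, h2]
    unfold em
    rw [cp_mk, cp_mk, cp_mk, sg_mk, ← h]

theorem cj_cF {enc : Dif → ℝ → Dif} (he : ∀ f : Dif, (∃ z, f z ≠ z) → ∀ w : ℝ, Cj f (enc f w) ∧ enc f w 1 = cay w)
    (p : PD n) (w : ℝ) : ∃ g : HX n, g * em p * g⁻¹ = em (cF enc (sl (kp p)) p w) := by
  classical
  rcases h : sl (kp p) with _ | a | ⟨b, b'⟩
  · exact ⟨1, by simp [cF]⟩
  · obtain ⟨h1, h2⟩ := sl_inl h
    obtain ⟨k, hk⟩ := (cj_iff (f := hm (p.2 a)) (g := hm (enc (p.2 a) w))).1 (he _ h2 w).1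
    refine ⟨mk 1 (Function.update 1 a k), conj_cp _ _ _ rfl fun i => ?_⟩
    show _ = hm (Function.update p.2 a (enc (p.2 a) w) i)
    by_cases hi : i = a
    · rw [hi, h1, Function.update_self, Function.update_self]
      exact hk
    · have h3 : p.1 i ≠ a := fun h3 => hi (p.1.injective (h3.trans h1.symm))
      rw [Function.update_of_ne hi, Function.update_of_ne h3, Function.update_of_ne hi]
      simp
  · obtain ⟨h1, h2, h3⟩ := sl_inr h
    have hb' : p.1 b' = b := by rw [h2]; exact p.1.apply_symm_apply b
    have h4 : b ≠ b' := by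
      intro h4
      apply h1
      rw [← h4] at hb'
      exact hb'
    refine ⟨mk 1 (Function.update 1 b (hm (mulC ((p.2 b).symm (cay w))))⁻¹), conj_cp _ _ _ rfl fun i => ?_⟩
    show _ = hm (Function.update (Function.update p.2 b
      ((mulC ((p.2 b).symm (cay w))).trans (p.2 b))) b' ((p.2 b').trans (mulC ((p.2 b).symm (cay w))⁻¹)) i)
    by_cases hi : i = b
    · rw [hi, Function.update_of_ne h4, Function.update_self, Function.update_self, Function.update_of_ne h1, hm_trans]
      simp
    · by_cases hi' : i = b'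
      · rw [hi', hb', Function.update_self, Function.update_self, Function.update_of_ne h4.symm, hm_trans, hm_mulC_inv]
        simp
      · have h5 : p.1 i ≠ b := fun h5 => hi' (p.1.injective (h5.trans hb'.symm))
        rw [Function.update_of_ne h5, Function.update_of_ne hi, Function.update_of_ne hi', Function.update_of_ne hi]
        simp

/-! ### Measurability -/

theorem continuous_cay : Continuous cay := by
  have h : Continuous fun w : ℝ => (cay w : ℂ) := by
    have h1 : (fun w : ℝ => (cay w : ℂ)) = fun w : ℝ => ((w : ℂ) + Complex.I) / ((w : ℂ) - Complex.I) :=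
      funext cay_coe
    rw [h1]
    exact Continuous.div (by fun_prop) (by fun_prop) sub_I_ne
  exact Continuous.subtype_mk h _

theorem measurable_cay : Measurable cay := continuous_cay.measurable

theorem measurable_symm {Ω : Type*} [MeasurableSpace Ω] {f : Ω → Dif} {z : Ω → Circle} (hf : Measurable f)
    (hz : Measurable z) : Measurable fun o => (f o).symm (z o) := by
  have h1 := isTopologicalGroup
  have h2 := polishSpace
  have h3 : Measurable fun o => (hm (f o))⁻¹ := (measurable_hm.comp hf).inv
  exact measurable_apply_uncurry.comp (h3.prodMk hz)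

theorem measurable_cF {enc : Dif → ℝ → Dif} (hem : Measurable (Function.uncurry enc))
    (s : Option (Fin n ⊕ Fin n × Fin n)) : Measurable fun q : PD n × ℝ => cF enc s q.1 q.2 := by
  have hcomp : ∀ i, Measurable fun q : PD n × ℝ => q.1.2 i := fun i =>
    (measurable_pi_apply i).comp (measurable_snd.comp measurable_fst)
  have hw : Measurable fun q : PD n × ℝ => q.2 := measurable_snd
  have hσ : Measurable fun q : PD n × ℝ => q.1.1 := measurable_fst.comp measurable_fst
  rcases s with _ | a | ⟨b, b'⟩
  · exact measurable_fst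
  · refine hσ.prodMk (measurable_pi_iff.2 fun i => ?_)
    by_cases hi : i = a
    · have h1 : (fun q : PD n × ℝ => Function.update q.1.2 a (enc (q.1.2 a) q.2) i) =
          fun q : PD n × ℝ => Function.uncurry enc (q.1.2 a, q.2) := by
        funext q
        rw [hi, Function.update_self]
        rfl
      show Measurable fun q : PD n × ℝ => Function.update q.1.2 a (enc (q.1.2 a) q.2) i
      rw [h1]
      exact hem.comp ((hcomp a).prodMk hw)
    · have h1 : (fun q : PD n × ℝ => Function.update q.1.2 a (enc (q.1.2 a) q.2) i) =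
          fun q : PD n × ℝ => q.1.2 i := by
        funext q
        rw [Function.update_of_ne hi]
      show Measurable fun q : PD n × ℝ => Function.update q.1.2 a (enc (q.1.2 a) q.2) i
      rw [h1]
      exact hcomp i
  · have hc : Measurable fun q : PD n × ℝ => (q.1.2 b).symm (cay q.2) :=
      measurable_symm (hcomp b) (measurable_cay.comp hw)
    refine hσ.prodMk (measurable_pi_iff.2 fun i => ?_)
    show Measurable fun q : PD n × ℝ => Function.update (Function.update q.1.2 b
      ((mulC ((q.1.2 b).symm (cay q.2))).trans (q.1.2 b))) b'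
      ((q.1.2 b').trans (mulC ((q.1.2 b).symm (cay q.2))⁻¹)) i
    by_cases hi' : i = b'
    · have h1 : (fun q : PD n × ℝ => Function.update (Function.update q.1.2 b
          ((mulC ((q.1.2 b).symm (cay q.2))).trans (q.1.2 b))) b'
          ((q.1.2 b').trans (mulC ((q.1.2 b).symm (cay q.2))⁻¹)) i) =
          fun q : PD n × ℝ => (q.1.2 b').trans (mulC ((q.1.2 b).symm (cay q.2))⁻¹) := by
        funext q
        rw [hi', Function.update_self]
      rw [h1, measurable_dif_iff]
      intro z
      show Measurable fun q : PD n × ℝ => ((q.1.2 b).symm (cay q.2))⁻¹ * q.1.2 b' z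
      exact hc.inv.mul (measurable_dif_iff.1 (hcomp b') z)
    · by_cases hi : i = b
      · have h1 : (fun q : PD n × ℝ => Function.update (Function.update q.1.2 b
            ((mulC ((q.1.2 b).symm (cay q.2))).trans (q.1.2 b))) b'
            ((q.1.2 b').trans (mulC ((q.1.2 b).symm (cay q.2))⁻¹)) i) =
            fun q : PD n × ℝ => (mulC ((q.1.2 b).symm (cay q.2))).trans (q.1.2 b) := by
          funext q
          rw [Function.update_of_ne hi', hi, Function.update_self]
        rw [h1, measurable_dif_iff]
        intro z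
        show Measurable fun q : PD n × ℝ => q.1.2 b ((q.1.2 b).symm (cay q.2) * z)
        exact measurable_dif_apply.comp ((hcomp b).prodMk (hc.mul_const z))
      · have h1 : (fun q : PD n × ℝ => Function.update (Function.update q.1.2 b
            ((mulC ((q.1.2 b).symm (cay q.2))).trans (q.1.2 b))) b'
            ((q.1.2 b').trans (mulC ((q.1.2 b).symm (cay q.2))⁻¹)) i) =
            fun q : PD n × ℝ => q.1.2 i := by
          funext q
          rw [Function.update_of_ne hi', Function.update_of_ne hi]
        rw [h1]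
        exact hcomp i

scoped instance permSing (n : ℕ) : MeasurableSingletonClass (Equiv.Perm (Fin n)) :=
  ⟨fun _ => MeasurableSpace.measurableSet_top⟩

theorem measurable_kp : Measurable (kp (n := n)) := by
  classical
  refine measurable_fst.prodMk (measurable_pi_iff.2 fun i => ?_)
  have h1 : MeasurableSet {p : PD n | p.1 i = i ∧ Mv (p.2 i)} := by
    have h2 : MeasurableSet {σ : Equiv.Perm (Fin n) | σ i = i} := MeasurableSpace.measurableSet_top
    have h3 : MeasurableSet {p : PD n | p.1 i = i} := measurable_fst h2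
    have h6 : Measurable fun p : PD n => p.2 i := (measurable_pi_apply i).comp measurable_snd
    have h4 : MeasurableSet {p : PD n | Mv (p.2 i)} := h6 measurableSet_mv
    exact h3.inter h4
  refine measurable_to_bool ?_
  have h5 : (fun p : PD n => decide (p.1 i = i ∧ Mv (p.2 i))) ⁻¹' {true} = {p : PD n | p.1 i = i ∧ Mv (p.2 i)} := by
    ext p
    simp
  rw [h5]
  exact h1

/-- Absorption. -/
theorem absorbM : ∃ (en : PD n → ℝ → PD n) (de : PD n → ℝ), Measurable (Function.uncurry en) ∧
    ∀ p, em p ≠ 1 → ∀ w, (∃ g : HX n, g * em p * g⁻¹ = em (en p w)) ∧ de (en p w) = w := by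
  obtain ⟨enc, hem, he⟩ := absorb
  refine ⟨fun p w => cF enc (sl (kp p)) p w, fun p => dF (sl (kp p)) p, ?_, fun p hp w =>
    ⟨cj_cF he p w, dF_cF he hp w⟩⟩
  have h1 : Measurable fun q : (Equiv.Perm (Fin n) × (Fin n → Bool)) × (PD n × ℝ) =>
      cF enc (sl q.1) q.2.1 q.2.2 :=
    measurable_from_prod_countable_right fun k => measurable_cF hem (sl k)
  have h2 : Measurable fun q : PD n × ℝ => (kp q.1, q) := (measurable_kp.comp measurable_fst).prodMk measurable_id
  exact h1.comp h2

end Pool.Agent.CIM
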