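import Pool.Agent.Lib.CIM.Glo

/-!
# CIM.Cht: local coordinates of a parametrised closed curve in a one-manifold
-/

set_option autoImplicit false

open Set Filter Topology
open scoped ContDiff Manifold

namespace Pool.Agent.CIM

open Pool.Agent.CIR

/-- The one-dimensional Euclidean space. -/
abbrev E1 := EuclideanSpace ℝ (Fin 1)

/-- The real line as the Euclidean space. -/
noncomputable def cv : ℝ →L[ℝ] E1 := (ContinuousLinearMap.id ℝ ℝ).smulRight (EuclideanSpace.single (0 : Fin 1) (1 : ℝ))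

/-- The coordinate. -/
noncomputable def co : E1 →L[ℝ] ℝ := EuclideanSpace.proj (0 : Fin 1)

theorem co_cv (t : ℝ) : co (cv t) = t := by
  simp [co, cv]

theorem cv_co (v : E1) : cv (co v) = v := by
  ext i
  fin_cases i
  simp [co, cv]

variable {M : Type*} [TopologicalSpace M] [ChartedSpace E1 M] [IsManifold 𝓘(ℝ, E1) ∞ M]

theorem contMDiffAt_cv {f : ℝ → ℝ} {t : ℝ} (hf : ContDiffAt ℝ ∞ f t) :
    ContMDiffAt 𝓘(ℝ, ℝ) 𝓘(ℝ, E1) ∞ (fun t => cv (f t)) t := by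
  rw [contMDiffAt_iff_contDiffAt]
  exact cv.contDiff.contDiffAt.comp t hf

/-- The curve in the chart at `m₀`. -/
noncomputable def qq (m₀ : M) (s : ℝ) (t : ℝ) : M := (chartAt E1 m₀).symm (cv (s * t))

theorem contMDiffAt_qq (m₀ : M) (s : ℝ) {t : ℝ} (ht : cv (s * t) ∈ (chartAt E1 m₀).target) :
    ContMDiffAt 𝓘(ℝ, ℝ) 𝓘(ℝ, E1) ∞ (qq m₀ s) t := by
  have h1 : ContMDiffAt 𝓘(ℝ, E1) 𝓘(ℝ, E1) ∞ (chartAt E1 m₀).symm (cv (s * t)) :=
    (contMDiffOn_chart_symm (I := 𝓘(ℝ, E1)) (n := ∞) (x := m₀)).contMDiffAt ((chartAt E1 m₀).open_target.mem_nhds ht)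
  have h2 : ContMDiffAt 𝓘(ℝ, ℝ) 𝓘(ℝ, E1) ∞ (fun t => cv (s * t)) t :=
    contMDiffAt_cv (contDiffAt_const.mul contDiffAt_id)
  exact ContMDiffAt.comp t h1 h2

theorem contMDiffAt_cc (m₀ : M) {m : M} (hm : m ∈ (chartAt E1 m₀).source) :
    ContMDiffAt 𝓘(ℝ, E1) 𝓘(ℝ, ℝ) ∞ (fun m => co ((chartAt E1 m₀) m)) m := by
  have h1 : ContMDiffAt 𝓘(ℝ, E1) 𝓘(ℝ, E1) ∞ (chartAt E1 m₀) m :=
    (contMDiffOn_chart (I := 𝓘(ℝ, E1)) (n := ∞) (x := m₀)).contMDiffAt ((chartAt E1 m₀).open_source.mem_nhds hm)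
  have h2 : ContMDiffAt 𝓘(ℝ, E1) 𝓘(ℝ, ℝ) ∞ (fun v : E1 => co v) ((chartAt E1 m₀) m) := by
    rw [contMDiffAt_iff_contDiffAt]
    exact co.contDiff.contDiffAt
  exact ContMDiffAt.comp m h2 h1

/-- The derivative of an immersion along a chart does not vanish. -/
theorem deriv_ne {N : ℕ} {F : M → EuclideanSpace ℝ (Fin N)} (hF : ContMDiff 𝓘(ℝ, E1) 𝓘(ℝ, EuclideanSpace ℝ (Fin N)) ∞ F)
    (hi : ∀ m, Function.Injective (mfderiv 𝓘(ℝ, E1) 𝓘(ℝ, EuclideanSpace ℝ (Fin N)) F m)) (m₀ : M) {s : ℝ} (hs : s ≠ 0)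
    {t : ℝ} (ht : cv (s * t) ∈ (chartAt E1 m₀).target) : deriv (fun t => F (qq m₀ s t)) t ≠ 0 := by
  intro h0
  have hq : MDifferentiableAt 𝓘(ℝ, ℝ) 𝓘(ℝ, E1) (qq m₀ s) t := (contMDiffAt_qq m₀ s ht).mdifferentiableAt (by simp)
  have hFd : MDifferentiableAt 𝓘(ℝ, E1) 𝓘(ℝ, EuclideanSpace ℝ (Fin N)) F (qq m₀ s t) :=
    (hF _).mdifferentiableAt (by simp)
  have h1 : mfderiv 𝓘(ℝ, ℝ) 𝓘(ℝ, EuclideanSpace ℝ (Fin N)) (F ∘ qq m₀ s) t =
      (mfderiv 𝓘(ℝ, E1) 𝓘(ℝ, EuclideanSpace ℝ (Fin N)) F (qq m₀ s t)).comp (mfderiv 𝓘(ℝ, ℝ) 𝓘(ℝ, E1) (qq m₀ s) t) :=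
    mfderiv_comp t hFd hq
  have h2 : (mfderiv 𝓘(ℝ, E1) 𝓘(ℝ, EuclideanSpace ℝ (Fin N)) F (qq m₀ s t))
      ((mfderiv 𝓘(ℝ, ℝ) 𝓘(ℝ, E1) (qq m₀ s) t) (1 : ℝ)) = 0 := by
    have h3 : (mfderiv 𝓘(ℝ, ℝ) 𝓘(ℝ, EuclideanSpace ℝ (Fin N)) (F ∘ qq m₀ s) t) (1 : ℝ) = 0 := by
      rw [mfderiv_eq_fderiv]
      exact h0
    rw [h1] at h3
    exact h3
  have h4 : (mfderiv 𝓘(ℝ, ℝ) 𝓘(ℝ, E1) (qq m₀ s) t) (1 : ℝ) = 0 := by
    apply hi (qq m₀ s t)
    rw [h2, map_zero]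
  have hsrc : qq m₀ s t ∈ (chartAt E1 m₀).source := (chartAt E1 m₀).map_target ht
  have hc : MDifferentiableAt 𝓘(ℝ, E1) 𝓘(ℝ, ℝ) (fun m => co ((chartAt E1 m₀) m)) (qq m₀ s t) :=
    (contMDiffAt_cc m₀ hsrc).mdifferentiableAt (by simp)
  have h5 : mfderiv 𝓘(ℝ, ℝ) 𝓘(ℝ, ℝ) ((fun m => co ((chartAt E1 m₀) m)) ∘ qq m₀ s) t =
      (mfderiv 𝓘(ℝ, E1) 𝓘(ℝ, ℝ) (fun m => co ((chartAt E1 m₀) m)) (qq m₀ s t)).comp
        (mfderiv 𝓘(ℝ, ℝ) 𝓘(ℝ, E1) (qq m₀ s) t) :=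
    mfderiv_comp t hc hq
  have h6 : (mfderiv 𝓘(ℝ, ℝ) 𝓘(ℝ, ℝ) ((fun m => co ((chartAt E1 m₀) m)) ∘ qq m₀ s) t) (1 : ℝ) = 0 := by
    rw [h5]
    show (mfderiv 𝓘(ℝ, E1) 𝓘(ℝ, ℝ) (fun m => co ((chartAt E1 m₀) m)) (qq m₀ s t))
        ((mfderiv 𝓘(ℝ, ℝ) 𝓘(ℝ, E1) (qq m₀ s) t) (1 : ℝ)) = 0
    rw [h4, map_zero]
  have h7 : ((fun m => co ((chartAt E1 m₀) m)) ∘ qq m₀ s) =ᶠ[𝓝 t] fun t => s * t := by
    have h8 : ∀ᶠ t' in 𝓝 t, cv (s * t') ∈ (chartAt E1 m₀).target := by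
      have h9 : ContinuousAt (fun t => cv (s * t)) t := by
        have : Continuous fun t : ℝ => cv (s * t) := cv.continuous.comp (continuous_const.mul continuous_id)
        exact this.continuousAt
      exact h9.eventually_mem ((chartAt E1 m₀).open_target.mem_nhds ht)
    filter_upwards [h8] with t' ht'
    show co ((chartAt E1 m₀) ((chartAt E1 m₀).symm (cv (s * t')))) = s * t'
    rw [(chartAt E1 m₀).right_inv ht', co_cv]
  rw [mfderiv_eq_fderiv] at h6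
  have h10 : deriv ((fun m => co ((chartAt E1 m₀) m)) ∘ qq m₀ s) t = 0 := h6
  rw [h7.deriv_eq] at h10
  rw [deriv_const_mul_field, deriv_id'', mul_one] at h10
  exact hs h10

/-- The local representation. -/
theorem exists_loc {N : ℕ} {F : M → EuclideanSpace ℝ (Fin N)}
    (hF : ContMDiff 𝓘(ℝ, E1) 𝓘(ℝ, EuclideanSpace ℝ (Fin N)) ∞ F)
    (hi : ∀ m, Function.Injective (mfderiv 𝓘(ℝ, E1) 𝓘(ℝ, EuclideanSpace ℝ (Fin N)) F m)) {p : ℝ → M}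
    (hp : Continuous p) (hinj : ∀ x y, x < y → y < x + 1 → p x ≠ p y) (x₀ : ℝ) :
    ∃ a b s : ℝ, x₀ ∈ Ioo a b ∧ s ≠ 0 ∧ s * s = 1 ∧ (∀ x ∈ Ioo a b, p x ∈ (chartAt E1 (p x₀)).source) ∧
      Loc (fun x => F (p x)) a b (fun x => s * co ((chartAt E1 (p x₀)) (p x))) fun t => F (qq (p x₀) s t) := by
  set c := chartAt E1 (p x₀) with hc
  have h1 : ∀ᶠ x in 𝓝 x₀, p x ∈ c.source :=
    hp.continuousAt.eventually_mem (c.open_source.mem_nhds (mem_chart_source E1 (p x₀)))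
  obtain ⟨r, hr, hball⟩ := Metric.eventually_nhds_iff.1 h1
  let d := min (r / 2) (1 / 4)
  have hd : 0 < d := lt_min (by positivity) (by norm_num)
  have hdr : d ≤ r / 2 := min_le_left _ _
  have hd4 : d ≤ 1 / 4 := min_le_right _ _
  have hsrc : ∀ x ∈ Icc (x₀ - d) (x₀ + d), p x ∈ c.source := fun x hx => hball (by
    rw [Real.dist_eq, abs_lt]
    constructor <;> linarith [hx.1, hx.2])
  have hcont : ContinuousOn (fun x => co (c (p x))) (Icc (x₀ - d) (x₀ + d)) :=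
    co.continuous.comp_continuousOn (c.continuousOn.comp hp.continuousOn hsrc)
  have hio : InjOn (fun x => co (c (p x))) (Icc (x₀ - d) (x₀ + d)) := by
    intro x hx y hy hxy
    have h2 : c (p x) = c (p y) := by
      rw [← cv_co (c (p x)), ← cv_co (c (p y))]
      exact congrArg _ hxy
    have h3 : p x = p y := c.injOn (hsrc x hx) (hsrc y hy) h2
    by_contra hne
    rcases lt_or_gt_of_ne hne with h4 | h4
    · exact hinj x y h4 (by linarith [hx.1, hy.2]) h3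
    · exact hinj y x h4 (by linarith [hy.1, hx.2]) h3.symm
  have hmono := hcont.strictMonoOn_of_injOn_Icc' (by linarith) hio
  obtain ⟨s, hs0, hss, hsm⟩ : ∃ s : ℝ, s ≠ 0 ∧ s * s = 1 ∧
      StrictMonoOn (fun x => s * co (c (p x))) (Ioo (x₀ - d) (x₀ + d)) := by
    rcases hmono with h | h
    · refine ⟨1, one_ne_zero, one_mul 1, ?_⟩
      intro x hx y hy hxy
      show 1 * _ < 1 * _
      rw [one_mul, one_mul]
      exact h (Ioo_subset_Icc_self hx) (Ioo_subset_Icc_self hy) hxy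
    · refine ⟨-1, by norm_num, by norm_num, ?_⟩
      intro x hx y hy hxy
      have := h (Ioo_subset_Icc_self hx) (Ioo_subset_Icc_self hy) hxy
      show -1 * _ < -1 * _
      simp only at this
      linarith
  have hback : ∀ x, s * (s * co (c (p x))) = co (c (p x)) := fun x => by rw [← mul_assoc, hss, one_mul]
  have htar : ∀ x ∈ Ioo (x₀ - d) (x₀ + d), cv (s * (s * co (c (p x)))) ∈ c.target := by
    intro x hx
    rw [hback, cv_co]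
    exact c.map_source (hsrc x (Ioo_subset_Icc_self hx))
  refine ⟨x₀ - d, x₀ + d, s, ⟨by linarith, by linarith⟩, hs0, hss, fun x hx => hsrc x (Ioo_subset_Icc_self hx), ?_⟩
  refine ⟨(hcont.mono Ioo_subset_Icc_self).const_mul s, hsm, fun x hx => ?_, fun x hx => ?_, fun x hx => ?_⟩
  · rw [← contMDiffAt_iff_contDiffAt]
    exact ContMDiffAt.comp _ (hF _) (contMDiffAt_qq (p x₀) s (htar x hx))
  · exact deriv_ne hF hi (p x₀) hs0 (htar x hx)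
  · show F (p x) = F (c.symm (cv (s * (s * co (c (p x))))))
    rw [hback, cv_co, c.left_inv (hsrc x (Ioo_subset_Icc_self hx))]

end Pool.Agent.CIM
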