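import Pool.Agent.Lib.CIR.Final

/-!
# CIM.Defs: homeomorphisms of a finite disjoint union of circles
-/

set_option autoImplicit false

open Set
open scoped ContDiff Manifold

namespace Pool.Agent.CIM

open Pool.Agent.CIR

/-- The disjoint union of `n` circles. -/
abbrev X (n : ℕ) := Fin n × Circle

/-- The homeomorphisms of `X n`. -/
abbrev HX (n : ℕ) := X n ≃ₜ X n

/-- The topology of uniform convergence of the homeomorphisms and their inverses. -/
noncomputable scoped instance topX (n : ℕ) : TopologicalSpace (HX n) :=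
  TopologicalSpace.induced (fun h : HX n => ((⟨h, h.continuous⟩ : C(X n, X n)),
    (⟨h.symm, h.symm.continuous⟩ : C(X n, X n)))) inferInstance

noncomputable scoped instance measX (n : ℕ) : MeasurableSpace (HX n) := borel (HX n)

scoped instance borelX (n : ℕ) : BorelSpace (HX n) := ⟨rfl⟩

scoped instance measPerm (n : ℕ) : MeasurableSpace (Equiv.Perm (Fin n)) := ⊤

/-- The homeomorphism `(i, z) ↦ (σ i, f i z)`. -/
noncomputable def mk {n : ℕ} (σ : Equiv.Perm (Fin n)) (f : Fin n → H) : HX n where
  toFun x := (σ x.1, f x.1 x.2)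
  invFun y := (σ.symm y.1, (f (σ.symm y.1)).symm y.2)
  left_inv x := by
    obtain ⟨i, z⟩ := x
    simp
  right_inv y := by
    obtain ⟨i, z⟩ := y
    simp
  continuous_toFun := by
    rw [continuous_iff_continuousAt]
    rintro ⟨i, z⟩
    have h1 : ContinuousAt (fun x : X n => (σ i, f i x.2)) (i, z) :=
      (continuous_const.prodMk ((f i).continuous.comp continuous_snd)).continuousAt
    refine h1.congr ?_
    have h2 : ∀ᶠ x : X n in nhds (i, z), x.1 = i := by
      have h3 : IsOpen {x : X n | x.1 = i} := (isOpen_discrete {i}).preimage continuous_fst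
      exact h3.mem_nhds rfl
    filter_upwards [h2] with x hx
    rw [hx]
  continuous_invFun := by
    rw [continuous_iff_continuousAt]
    rintro ⟨i, z⟩
    have h1 : ContinuousAt (fun x : X n => (σ.symm i, (f (σ.symm i)).symm x.2)) (i, z) :=
      (continuous_const.prodMk ((f (σ.symm i)).symm.continuous.comp continuous_snd)).continuousAt
    refine h1.congr ?_
    have h2 : ∀ᶠ x : X n in nhds (i, z), x.1 = i := by
      have h3 : IsOpen {x : X n | x.1 = i} := (isOpen_discrete {i}).preimage continuous_fst
      exact h3.mem_nhds rfl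
    filter_upwards [h2] with x hx
    rw [hx]

theorem mk_apply {n : ℕ} (σ : Equiv.Perm (Fin n)) (f : Fin n → H) (i : Fin n) (z : Circle) :
    mk σ f (i, z) = (σ i, f i z) := rfl

theorem fst_const {n : ℕ} (h : HX n) (i : Fin n) (z w : Circle) : (h (i, z)).1 = (h (i, w)).1 := by
  have hc : Continuous fun z : Circle => (h (i, z)).1 :=
    continuous_fst.comp (h.continuous.comp (continuous_const.prodMk continuous_id))
  exact (IsLocallyConstant.iff_continuous _).2 hc |>.apply_eq_of_preconnectedSpace z w

/-- Every homeomorphism permutes the circles. -/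
theorem exists_mk {n : ℕ} (h : HX n) : ∃ p : Equiv.Perm (Fin n) × (Fin n → H), mk p.1 p.2 = h := by
  have h1 : ∀ i z, h (i, z) = ((h (i, 1)).1, (h (i, z)).2) := fun i z =>
    Prod.ext (fst_const h i z 1) rfl
  have h2 : ∀ i z, h.symm (i, z) = ((h.symm (i, 1)).1, (h.symm (i, z)).2) := fun i z =>
    Prod.ext (fst_const h.symm i z 1) rfl
  have h3 : ∀ i, (h.symm ((h (i, 1)).1, 1)).1 = i := by
    intro i
    have h4 : h (i, 1) = ((h (i, 1)).1, (h (i, 1)).2) := rfl
    have h5 : h.symm ((h (i, 1)).1, (h (i, 1)).2) = (i, 1) := h.symm_apply_apply (i, 1)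
    rw [fst_const h.symm _ 1 (h (i, 1)).2, h5]
  have h3' : ∀ i, (h ((h.symm (i, 1)).1, 1)).1 = i := by
    intro i
    have h5 : h ((h.symm (i, 1)).1, (h.symm (i, 1)).2) = (i, 1) := h.apply_symm_apply (i, 1)
    rw [fst_const h _ 1 (h.symm (i, 1)).2, h5]
  let σ : Equiv.Perm (Fin n) :=
    ⟨fun i => (h (i, 1)).1, fun i => (h.symm (i, 1)).1, h3, h3'⟩
  let f : Fin n → H := fun i =>
    { toFun := fun z => (h (i, z)).2
      invFun := fun z => (h.symm (σ i, z)).2
      left_inv := fun z => by
        show (h.symm ((h (i, 1)).1, (h (i, z)).2)).2 = z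
        rw [← h1, Homeomorph.symm_apply_apply]
      right_inv := fun z => by
        have h6 : (i, (h.symm (σ i, z)).2) = h.symm (σ i, z) := by
          refine Prod.ext ?_ rfl
          rw [fst_const h.symm _ z 1]
          exact (h3 i).symm
        show (h (i, (h.symm (σ i, z)).2)).2 = z
        rw [h6, Homeomorph.apply_symm_apply]
      continuous_toFun := continuous_snd.comp (h.continuous.comp (continuous_const.prodMk continuous_id))
      continuous_invFun := continuous_snd.comp (h.symm.continuous.comp (continuous_const.prodMk continuous_id)) }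
  refine ⟨(σ, f), Homeomorph.ext fun x => ?_⟩
  obtain ⟨i, z⟩ := x
  exact (h1 i z).symm

/-- The permutation of the circles. -/
noncomputable def sg {n : ℕ} (h : HX n) : Equiv.Perm (Fin n) := (exists_mk h).choose.1

/-- The homeomorphism of the circle `i` to the circle `sg h i`. -/
noncomputable def cp {n : ℕ} (h : HX n) (i : Fin n) : H := (exists_mk h).choose.2 i

theorem mk_sg_cp {n : ℕ} (h : HX n) : mk (sg h) (cp h) = h := (exists_mk h).choose_spec

theorem hx_apply {n : ℕ} (h : HX n) (i : Fin n) (z : Circle) : h (i, z) = (sg h i, cp h i z) := by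
  conv_lhs => rw [← mk_sg_cp h]
  rfl

end Pool.Agent.CIM
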