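import Pool.Agent.Lib.CIM.Abs

/-!
# CIM.Fin: conjugacy of smooth homeomorphisms of a disjoint union of circles is an orbit equivalence relation
-/

set_option autoImplicit false

open Set
open scoped ContDiff Manifold

namespace Pool.Agent.CIM

open Pool.Agent.CIR

variable {n : ℕ}

/-- All return maps are conjugate to smooth diffeomorphisms. -/
def Sx (h : HX n) : Prop := ∀ i, Sm (ret h i)

theorem sx_conj {g h : HX n} (hh : Sx h) : Sx (g * h * g⁻¹) := by
  intro i
  have h1 : i = sg g ((sg g)⁻¹ i) := ((sg g).apply_symm_apply i).symm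
  rw [h1, ret_conj]
  exact sm_of_cj (cj_iff.2 ⟨_, rfl⟩) (hh _)

theorem measurableSet_sx : MeasurableSet {h : HX n | Sx h} := by
  have h1 : {h : HX n | Sx h} = ⋂ i, {h : HX n | Sm (ret h i)} := by
    ext h
    simp only [mem_ofPred_eq, mem_iInter]
    rfl
  rw [h1]
  exact MeasurableSet.iInter fun i => measurable_ret i measurableSet_sm

/-- A power of a smooth homeomorphism is smooth. -/
theorem exists_em_pow (p : PD n) (k : ℕ) : ∃ q : PD n, em q = em p ^ k := by
  induction k with
  | zero =>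
    refine ⟨(1, fun _ => idD), ?_⟩
    rw [pow_zero]
    apply ext_hx
    · unfold em
      rw [sg_mk, sg_one]
    · intro i
      unfold em
      rw [cp_mk, cp_one]
      rfl
  | succ k ih =>
    obtain ⟨q, hq⟩ := ih
    refine ⟨(q.1 * p.1, fun i => (p.2 i).trans (q.2 (p.1 i))), ?_⟩
    rw [pow_succ, ← hq]
    apply ext_hx
    · rw [sg_mul]
      unfold em
      rw [sg_mk, sg_mk, sg_mk]
    · intro i
      rw [cp_mul]
      unfold em
      rw [cp_mk, cp_mk, cp_mk, sg_mk]
      rfl

theorem sx_em (p : PD n) : Sx (em p) := by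
  intro i
  obtain ⟨q, hq⟩ := exists_em_pow p (kk (sg (em p)) i)
  have h1 : ret (em p) i = hm (q.2 i) := by
    unfold ret
    rw [← hq]
    unfold em
    rw [cp_mk]
  rw [h1]
  exact dif_alt (q.2 i)

/-- The space on which the group acts. -/
def YS (n : ℕ) : Set (HX n × ℝ) := {y | Sx y.1 ∧ (y.1 = 1 → y.2 = 0)}

/-- The group. -/
abbrev Gp (n : ℕ) := HX n × Multiplicative ℝ

open Classical in
/-- Conjugation and translation. -/
noncomputable def actF (g : Gp n) (y : HX n × ℝ) : HX n × ℝ :=
  (g.1 * y.1 * g.1⁻¹, if y.1 = 1 then y.2 else y.2 + Multiplicative.toAdd g.2)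

theorem conj_one_iff (k h : HX n) : k * h * k⁻¹ = 1 ↔ h = 1 := by
  constructor
  · intro h3
    have h4 : k * h = k := by rwa [mul_inv_eq_one] at h3
    exact mul_eq_left.1 h4
  · rintro rfl
    group

theorem actF_mem (g : Gp n) {y : HX n × ℝ} (hy : y ∈ YS n) : actF g y ∈ YS n := by
  classical
  refine ⟨sx_conj hy.1, fun h1 => ?_⟩
  have h2 : y.1 = 1 := (conj_one_iff _ _).1 h1
  show (if y.1 = 1 then y.2 else y.2 + Multiplicative.toAdd g.2) = 0
  rw [if_pos h2]
  exact hy.2 h2

theorem actF_one (y : HX n × ℝ) : actF 1 y = y := by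
  unfold actF
  split_ifs <;> simp

theorem actF_mul (g k : Gp n) (y : HX n × ℝ) : actF (g * k) y = actF g (actF k y) := by
  classical
  obtain ⟨h, u⟩ := y
  refine Prod.ext ?_ ?_
  · show g.1 * k.1 * h * (g.1 * k.1)⁻¹ = g.1 * (k.1 * h * k.1⁻¹) * g.1⁻¹
    group
  · show (if h = 1 then u else u + Multiplicative.toAdd (g.2 * k.2)) =
      if k.1 * h * k.1⁻¹ = 1 then (if h = 1 then u else u + Multiplicative.toAdd k.2)
      else (if h = 1 then u else u + Multiplicative.toAdd k.2) + Multiplicative.toAdd g.2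
    by_cases h1 : h = 1
    · rw [if_pos h1, if_pos ((conj_one_iff _ _).2 h1), if_pos h1]
    · rw [if_neg h1, if_neg fun h2 => h1 ((conj_one_iff _ _).1 h2), if_neg h1, toAdd_mul]
      ring

/-- The action. -/
noncomputable scoped instance actY : MulAction (Gp n) (YS n) where
  smul g y := ⟨actF g y.1, actF_mem g y.2⟩
  one_smul y := Subtype.ext (actF_one y.1)
  mul_smul g k y := Subtype.ext (actF_mul g k y.1)

theorem smul_coe (g : Gp n) (y : YS n) : ((g • y : YS n) : HX n × ℝ) = actF g y.1 := rfl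

/-- The orbit equivalence relation on `YS`. -/
def S (y y' : YS n) : Prop := ∃ g : Gp n, g • y = y'

theorem S_equiv : Equivalence (S (n := n)) where
  refl y := ⟨1, one_smul _ _⟩
  symm := by
    rintro y y' ⟨g, rfl⟩
    exact ⟨g⁻¹, inv_smul_smul _ _⟩
  trans := by
    rintro x y z ⟨g, rfl⟩ ⟨k, rfl⟩
    exact ⟨k * g, mul_smul _ _ _⟩

theorem S_iff {y y' : YS n} : S y y' ↔ ∃ g : HX n, g * y.1.1 * g⁻¹ = y'.1.1 := by
  classical
  constructor
  · rintro ⟨g, rfl⟩
    exact ⟨g.1, rfl⟩
  · rintro ⟨k, hk⟩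
    by_cases h1 : y.1.1 = 1
    · have h2 : y'.1.1 = 1 := by rw [← hk]; exact (conj_one_iff _ _).2 h1
      refine ⟨1, ?_⟩
      rw [one_smul]
      apply Subtype.ext
      exact Prod.ext (h1.trans h2.symm) ((y.2.2 h1).trans (y'.2.2 h2).symm)
    · refine ⟨(k, Multiplicative.ofAdd (y'.1.2 - y.1.2)), ?_⟩
      apply Subtype.ext
      rw [smul_coe]
      refine Prod.ext hk ?_
      show (if y.1.1 = 1 then y.1.2 else y.1.2 + (y'.1.2 - y.1.2)) = y'.1.2
      rw [if_neg h1]
      ring

/-! ### Measurability -/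

attribute [local instance] isTopologicalGroupX polishSpaceX

theorem measurableSet_YS : MeasurableSet (YS n) := by
  have h1 : MeasurableSet {y : HX n × ℝ | Sx y.1} := measurable_fst measurableSet_sx
  have h2 : MeasurableSet {y : HX n × ℝ | y.1 = 1 → y.2 = 0} := by
    have h3 : {y : HX n × ℝ | y.1 = 1 → y.2 = 0} =
        {y : HX n × ℝ | y.1 ∈ ({1} : Set (HX n))}ᶜ ∪ {y | y.2 ∈ ({0} : Set ℝ)} := by
      ext y
      simp only [mem_ofPred_eq, mem_union, mem_compl_iff, mem_singleton_iff]
      tauto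
    rw [h3]
    exact (measurable_fst (measurableSet_singleton _)).compl.union (measurable_snd (measurableSet_singleton _))
  exact h1.inter h2

theorem measurable_actF : Measurable fun p : Gp n × (HX n × ℝ) => actF p.1 p.2 := by
  classical
  have h1 : MeasurableSet {p : Gp n × (HX n × ℝ) | p.2.1 = 1} :=
    (measurable_fst.comp measurable_snd) (measurableSet_singleton (1 : HX n))
  have hc : Measurable fun p : Gp n × (HX n × ℝ) => p.1.1 * p.2.1 * p.1.1⁻¹ := by fun_prop
  have ht : Measurable fun p : Gp n × (HX n × ℝ) => p.2.2 + Multiplicative.toAdd p.1.2 := by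
    have h2 : Measurable fun p : Gp n × (HX n × ℝ) => Multiplicative.toAdd p.1.2 :=
      measurable_toAdd'.comp (measurable_snd.comp measurable_fst)
    exact (measurable_snd.comp measurable_snd).add h2
  unfold actF
  exact hc.prodMk (Measurable.ite h1 (measurable_snd.comp measurable_snd) ht)

/-! ### The isomorphism -/

section Iso

open MeasureTheory

open Classical in
/-- The reduction of `PD` to `YS`. -/
noncomputable def iF [StandardBorelSpace (PD n)] (p : PD n) : YS n :=
  ⟨(em p, if em p = 1 then 0 else embeddingReal (PD n) p), sx_em p, fun h => if_pos h⟩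

theorem iF_inj [StandardBorelSpace (PD n)] : Function.Injective (iF (n := n)) := by
  intro p q h
  apply em_inj
  exact congrArg (fun y : YS n => y.1.1) h

theorem measurable_iF [StandardBorelSpace (PD n)] : Measurable (iF (n := n)) := by
  classical
  refine Measurable.subtype_mk (measurable_em.prodMk ?_)
  exact Measurable.ite (measurable_em (measurableSet_singleton (1 : HX n))) measurable_const
    (measurable_embeddingReal (PD n))

/-- The identity. -/
noncomputable def idP : PD n := (1, fun _ => idD)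

theorem em_idP : em (idP (n := n)) = 1 := by
  apply ext_hx
  · unfold em idP
    rw [sg_mk, sg_one]
  · intro i
    unfold em idP
    rw [cp_mk, cp_one]
    rfl

open Classical in
/-- The reduction of `YS` to `PD`. -/
noncomputable def jF (s : H → Dif) (en : PD n → ℝ → PD n) [StandardBorelSpace (YS n)] (y : YS n) : PD n :=
  if y.1.1 = 1 then idP else en (sg y.1.1, rl s y.1.1) (embeddingReal (YS n) y)

theorem measurable_jF {s : H → Dif} {en : PD n → ℝ → PD n} [StandardBorelSpace (YS n)] (hs : Measurable s)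
    (he : Measurable (Function.uncurry en)) : Measurable (jF s en) := by
  classical
  have h1 : Measurable fun y : YS n => y.1.1 := measurable_fst.comp measurable_subtype_coe
  have h2 : Measurable fun h : HX n => ((sg h, rl s h) : PD n) :=
    measurable_sg.prodMk (measurable_pi_iff.2 fun i => measurable_rl hs i)
  have h3 : MeasurableSet {y : YS n | y.1.1 = 1} := h1 (measurableSet_singleton (1 : HX n))
  have h4 : Measurable fun y : YS n => en (sg y.1.1, rl s y.1.1) (embeddingReal (YS n) y) :=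
    he.comp ((h2.comp h1).prodMk (measurable_embeddingReal (YS n)))
  exact Measurable.ite h3 measurable_const h4

/-- The smooth homeomorphisms up to conjugacy are Borel isomorphic to the orbits in `YS`. -/
theorem exists_iso [StandardBorelSpace (PD n)] : ∃ Φ : PD n ≃ᵐ YS n,
    ∀ p q : PD n, (∃ g : HX n, g * em p * g⁻¹ = em q) ↔ ∃ a : Gp n, a • Φ p = Φ q := by
  have : StandardBorelSpace (YS n) := measurableSet_YS.standardBorel
  obtain ⟨s, hsm, hs⟩ := realizeM
  obtain ⟨en, de, hem, he⟩ := absorbM (n := n)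
  have hr : ∀ y : YS n, ∃ g : HX n, g * y.1.1 * g⁻¹ = em (sg y.1.1, rl s y.1.1) := fun y =>
    cj_rl fun i => hs _ (y.2.1 i)
  have hne : ∀ y : YS n, y.1.1 ≠ 1 → em (sg y.1.1, rl s y.1.1) ≠ 1 := by
    intro y hy h1
    obtain ⟨g, hg⟩ := hr y
    rw [h1] at hg
    exact hy ((conj_one_iff _ _).1 hg)
  have hj1 : ∀ y : YS n, y.1.1 = 1 → jF s en y = idP := fun y hy => if_pos hy
  have hj2 : ∀ y : YS n, y.1.1 ≠ 1 → jF s en y = en (sg y.1.1, rl s y.1.1) (MeasureTheory.embeddingReal (YS n) y) :=
    fun y hy => if_neg hy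
  have hjc : ∀ y : YS n, ∃ g : HX n, g * y.1.1 * g⁻¹ = em (jF s en y) := by
    intro y
    by_cases hy : y.1.1 = 1
    · rw [hj1 y hy, em_idP, hy]
      exact ⟨1, by group⟩
    · rw [hj2 y hy]
      obtain ⟨g, hg⟩ := hr y
      obtain ⟨k, hk⟩ := (he _ (hne y hy) (MeasureTheory.embeddingReal (YS n) y)).1
      refine ⟨k * g, ?_⟩
      rw [← hk, ← hg]
      group
  have hji : Function.Injective (jF s en) := by
    have key : ∀ y y' : YS n, y.1.1 = 1 → y'.1.1 ≠ 1 → jF s en y ≠ jF s en y' := by
      intro y y' h1 h2 h3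
      obtain ⟨g, hg⟩ := hjc y'
      rw [← h3, hj1 y h1, em_idP] at hg
      exact h2 ((conj_one_iff _ _).1 hg)
    intro y y' h
    by_cases h1 : y.1.1 = 1 <;> by_cases h2 : y'.1.1 = 1
    · apply Subtype.ext
      exact Prod.ext (h1.trans h2.symm) ((y.2.2 h1).trans (y'.2.2 h2).symm)
    · exact absurd h (key _ _ h1 h2)
    · exact absurd h.symm (key _ _ h2 h1)
    · rw [hj2 y h1, hj2 y' h2] at h
      have h3 := (he _ (hne y h1) (MeasureTheory.embeddingReal (YS n) y)).2
      have h4 := (he _ (hne y' h2) (MeasureTheory.embeddingReal (YS n) y')).2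
      rw [h, h4] at h3
      exact ((MeasureTheory.measurableEmbedding_embeddingReal (YS n)).injective h3).symm
  have hR : ∀ p q : PD n, (∃ g : HX n, g * em p * g⁻¹ = em q) ↔ S (iF p) (iF q) := fun p q =>
    (S_iff (y := iF p) (y' := iF q)).symm
  have hij : ∀ y, S (iF (jF s en y)) y := by
    intro y
    obtain ⟨g, hg⟩ := hjc y
    refine S_iff.2 ⟨g⁻¹, ?_⟩
    show g⁻¹ * em (jF s en y) * g⁻¹⁻¹ = y.1.1
    rw [← hg]
    group
  obtain ⟨Φ, hΦ⟩ := cantor_bernstein S_equiv measurable_iF (measurable_jF hsm hem) iF_inj hji hR hij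
  exact ⟨Φ, hΦ⟩

/-- Conjugacy is an orbit equivalence relation of a Borel action of a Polish group. -/
theorem mainP [StandardBorelSpace (PD n)] : ∃ act : MulAction (Gp n) (PD n),
    (Measurable fun p : Gp n × PD n => act.smul p.1 p.2) ∧
    ∀ p q : PD n, (∃ g : HX n, g * em p * g⁻¹ = em q) ↔ ∃ a : Gp n, act.smul a p = q := by
  obtain ⟨Φ, hΦ⟩ := exists_iso (n := n)
  refine ⟨{ smul := fun a f => Φ.symm (a • Φ f)
            one_smul := fun f => ?_
            mul_smul := fun a b f => ?_ }, ?_, fun f g => ?_⟩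
  · show Φ.symm ((a * b) • Φ f) = Φ.symm (a • Φ (Φ.symm (b • Φ f)))
    rw [MeasurableEquiv.apply_symm_apply, mul_smul]
  · show Φ.symm ((1 : Gp n) • Φ f) = f
    rw [one_smul, MeasurableEquiv.symm_apply_apply]
  · show Measurable fun p : Gp n × PD n => Φ.symm (p.1 • Φ p.2)
    refine Φ.symm.measurable.comp ?_
    refine Measurable.subtype_mk ?_ (h := fun p : Gp n × PD n => (p.1 • Φ p.2).2)
    exact measurable_actF.comp (measurable_fst.prodMk
      (measurable_subtype_coe.comp (Φ.measurable.comp measurable_snd)))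
  · rw [hΦ]
    constructor
    · rintro ⟨a, ha⟩
      refine ⟨a, ?_⟩
      show Φ.symm (a • Φ f) = g
      rw [ha, MeasurableEquiv.symm_apply_apply]
    · rintro ⟨a, ha⟩
      refine ⟨a, ?_⟩
      rw [← ha]
      show _ = Φ (Φ.symm (a • Φ f))
      rw [MeasurableEquiv.apply_symm_apply]

end Iso

end Pool.Agent.CIM
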