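import Pool.Agent.Lib.CIM.Mod
import Pool.Agent.Lib.CIM.Fin
import Pool.Agent.Lib.P9aeaaa.Final

/-!
# CIM.Eqv: the diffeomorphisms of a closed one-manifold and the smooth homeomorphisms of `X n`
-/

set_option autoImplicit false

open Set Filter Topology
open scoped ContDiff Manifold

namespace Pool.Agent.CIM

open Pool.Agent.CIR

theorem sb_of_equiv {α β : Type*} [MeasurableSpace α] [mβ : MeasurableSpace β] [h : StandardBorelSpace α]
    (e : α ≃ᵐ β) : StandardBorelSpace β := by
  obtain ⟨τ, hb, hp⟩ := h.polish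
  let τ' : TopologicalSpace β := TopologicalSpace.induced e.symm τ
  have h1 : @PolishSpace β τ' := Equiv.polishSpace_induced e.symm.toEquiv
  refine ⟨τ', ⟨?_⟩, h1⟩
  have h2 : @borel β τ' = MeasurableSpace.comap e.symm (borel α) := borel_comap
  rw [h2, ← hb.measurable_eq]
  exact (e.symm.measurableEmbedding.comap_eq).symm

variable {M : Type*} [TopologicalSpace M] [ChartedSpace E1 M]

/-- The diffeomorphisms of `M`. -/
abbrev DM (M : Type*) [TopologicalSpace M] [ChartedSpace E1 M] := M ≃ₘ⟮𝓘(ℝ, E1), 𝓘(ℝ, E1)⟯ M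

/-- The data of a smooth identification of `M` with `X n`. -/
structure Md (n : ℕ) (e : X n ≃ₜ M) : Prop where
  fwd : ∀ i, ContMDiff 𝓘(ℝ, E1) 𝓘(ℝ, E1) ∞ fun z : Circle => e (i, z)
  bwd : ContMDiff 𝓘(ℝ, E1) 𝓘(ℝ, E1) ∞ fun m => (e.symm m).2

variable {n : ℕ} {e : X n ≃ₜ M}

/-- The homeomorphism of `X n` given by a diffeomorphism of `M`. -/
noncomputable def hh (e : X n ≃ₜ M) (f : DM M) : HX n := (e.trans f.toHomeomorph).trans e.symm

theorem hh_apply (e : X n ≃ₜ M) (f : DM M) (x : X n) : hh e f x = e.symm (f (e x)) := rfl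

theorem hh_symm_apply (e : X n ≃ₜ M) (f : DM M) (x : X n) : (hh e f).symm x = e.symm (f.symm (e x)) := rfl

theorem cp_symm_apply (h : HX n) (i : Fin n) (z : Circle) : (cp h i).symm z = (h.symm (sg h i, z)).2 := by
  have h1 : h (i, (cp h i).symm z) = (sg h i, z) := by
    rw [hx_apply, Homeomorph.apply_symm_apply]
  rw [← h1, Homeomorph.symm_apply_apply]

/-- The element of `PD n` given by a diffeomorphism of `M`. -/
noncomputable def toP (he : Md n e) (f : DM M) : PD n :=
  (sg (hh e f), fun i =>
    { toEquiv := (cp (hh e f) i).toEquiv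
      contMDiff_toFun := by
        have h1 : (fun z : Circle => (cp (hh e f) i) z) = fun z => (e.symm (f (e (i, z)))).2 := by
          funext z
          rw [← hh_apply, hx_apply]
        have h2 : ContMDiff 𝓘(ℝ, E1) 𝓘(ℝ, E1) ∞ fun z : Circle => (e.symm (f (e (i, z)))).2 :=
          he.bwd.comp (f.contMDiff.comp (he.fwd i))
        rw [← h1] at h2
        exact h2
      contMDiff_invFun := by
        have h1 : (fun z : Circle => (cp (hh e f) i).symm z) = fun z => (e.symm (f.symm (e (sg (hh e f) i, z)))).2 := by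
          funext z
          rw [cp_symm_apply, hh_symm_apply]
        have h2 : ContMDiff 𝓘(ℝ, E1) 𝓘(ℝ, E1) ∞ fun z : Circle => (e.symm (f.symm (e (sg (hh e f) i, z)))).2 :=
          he.bwd.comp (f.symm.contMDiff.comp (he.fwd _))
        rw [← h1] at h2
        exact h2 })

theorem em_toP (he : Md n e) (f : DM M) : em (toP he f) = hh e f := by
  apply ext_hx
  · unfold em
    rw [sg_mk]
    rfl
  · intro i
    unfold em
    rw [cp_mk]
    rfl

theorem smooth_em (he : Md n e) (p : PD n) : ContMDiff 𝓘(ℝ, E1) 𝓘(ℝ, E1) ∞ fun m => e (em p (e.symm m)) := by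
  intro m₀
  have h1 : ContMDiffAt 𝓘(ℝ, E1) 𝓘(ℝ, E1) ∞
      (fun m => e (p.1 (e.symm m₀).1, p.2 (e.symm m₀).1 (e.symm m).2)) m₀ :=
    ((he.fwd _).comp ((p.2 (e.symm m₀).1).contMDiff.comp he.bwd)) m₀
  refine h1.congr_of_eventuallyEq ?_
  have h2 : ∀ᶠ m in 𝓝 m₀, (e.symm m).1 = (e.symm m₀).1 := by
    have h3 : Continuous fun m => (e.symm m).1 := continuous_fst.comp e.symm.continuous
    exact h3.continuousAt.eventually_mem ((isOpen_discrete {(e.symm m₀).1}).mem_nhds rfl)
  filter_upwards [h2] with m hm
  have h3 : e.symm m = ((e.symm m₀).1, (e.symm m).2) := Prod.ext hm rfl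
  conv_lhs => rw [h3]
  rfl

/-- The inverse element. -/
noncomputable def inv' (p : PD n) : PD n := (p.1⁻¹, fun i => (p.2 (p.1⁻¹ i)).symm)

theorem em_inv' (p : PD n) : em (inv' p) = (em p)⁻¹ := by
  rw [eq_inv_iff_mul_eq_one]
  apply ext_hx
  · rw [sg_mul, sg_one]
    unfold em
    rw [sg_mk, sg_mk]
    exact inv_mul_cancel p.1
  · intro i
    rw [cp_mul, cp_one]
    unfold em
    rw [cp_mk, cp_mk, sg_mk]
    show hm (p.2 (p.1⁻¹ (p.1 i))).symm * hm (p.2 i) = 1
    rw [inv_app]
    exact inv_mul_cancel (hm (p.2 i))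

/-- The diffeomorphism of `M` given by an element of `PD n`. -/
noncomputable def ofP (he : Md n e) (p : PD n) : DM M where
  toFun m := e (em p (e.symm m))
  invFun m := e ((em p).symm (e.symm m))
  left_inv m := by
    show e ((em p).symm (e.symm (e (em p (e.symm m))))) = m
    rw [Homeomorph.symm_apply_apply, Homeomorph.symm_apply_apply, Homeomorph.apply_symm_apply]
  right_inv m := by
    show e (em p (e.symm (e ((em p).symm (e.symm m))))) = m
    rw [Homeomorph.symm_apply_apply, Homeomorph.apply_symm_apply, Homeomorph.apply_symm_apply]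
  contMDiff_toFun := smooth_em he p
  contMDiff_invFun := by
    have h1 := smooth_em he (inv' p)
    rw [em_inv'] at h1
    exact h1

theorem ofP_apply (he : Md n e) (p : PD n) (m : M) : ofP he p m = e (em p (e.symm m)) := rfl

theorem hh_ofP (he : Md n e) (p : PD n) : hh e (ofP he p) = em p := by
  refine Homeomorph.ext fun x => ?_
  rw [hh_apply, ofP_apply, Homeomorph.symm_apply_apply, Homeomorph.symm_apply_apply]

theorem hh_inj {f g : DM M} (h : hh e f = hh e g) : f = g := by
  ext m
  have h1 := DFunLike.congr_fun h (e.symm m)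
  rw [hh_apply, hh_apply, Homeomorph.apply_symm_apply] at h1
  exact e.symm.injective h1

/-- The evaluation σ-algebra. -/
@[instance_reducible]
noncomputable def evM (M : Type*) [TopologicalSpace M] [ChartedSpace E1 M] : MeasurableSpace (DM M) :=
  Pool.Agent.Lib.P9aeaaa.evalSigma E1 M

theorem measurable_ev (m : M) : @Measurable (DM M) M (evM M) (borel M) fun f => f m := by
  rw [measurable_iff_comap_le]
  exact le_iSup (fun m : M => MeasurableSpace.comap (fun f : DM M => f m) (borel M)) m

theorem measurable_to_ev {Ω : Type*} [mΩ : MeasurableSpace Ω] {F : Ω → DM M}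
    (h : ∀ m, @Measurable Ω M _ (borel M) fun o => F o m) : @Measurable Ω (DM M) _ (evM M) F := by
  rw [measurable_iff_comap_le]
  show MeasurableSpace.comap F (⨆ m : M, MeasurableSpace.comap (fun f : DM M => f m) (borel M)) ≤ mΩ
  rw [MeasurableSpace.comap_iSup]
  refine iSup_le fun m => ?_
  rw [MeasurableSpace.comap_comp]
  exact (measurable_iff_comap_le (m₂ := borel M)).1 (h m)

theorem measurable_hh (e : X n ≃ₜ M) : @Measurable (DM M) (HX n) (evM M) _ (hh e) := by
  let _ := evM M
  rw [measurable_HX_iff]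
  intro x
  let _ : MeasurableSpace M := borel M
  have : BorelSpace M := ⟨rfl⟩
  exact e.symm.continuous.measurable.comp (measurable_ev (e x))

theorem measurable_toP (he : Md n e) : @Measurable (DM M) (PD n) (evM M) _ (toP he) := by
  let _ := evM M
  have h0 := measurable_hh (M := M) e
  refine (measurable_sg.comp h0).prodMk (measurable_pi_iff.2 fun i => ?_)
  rw [measurable_dif_iff]
  intro z
  exact measurable_H_iff.1 ((measurable_cp i).comp h0) z

theorem measurable_ofP (he : Md n e) : @Measurable (PD n) (DM M) _ (evM M) (ofP he) := by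
  refine measurable_to_ev fun m => ?_
  let _ : MeasurableSpace M := borel M
  have : BorelSpace M := ⟨rfl⟩
  exact e.continuous.measurable.comp (measurable_HX_iff.1 measurable_em (e.symm m))

/-- The measurable equivalence. -/
noncomputable def eqP (he : Md n e) : @MeasurableEquiv (DM M) (PD n) (evM M) _ :=
  @MeasurableEquiv.mk (DM M) (PD n) (evM M) _
    { toFun := toP he
      invFun := ofP he
      left_inv := fun f => hh_inj (e := e) (by rw [hh_ofP, em_toP])
      right_inv := fun p => em_inj (by rw [em_toP, hh_ofP]) }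
    (measurable_toP he) (measurable_ofP he)

theorem conj_iff (he : Md n e) (f g : DM M) : (∃ h : M ≃ₜ M, ∀ m, h (f m) = g (h m)) ↔
    ∃ k : HX n, k * em (toP he f) * k⁻¹ = em (toP he g) := by
  rw [em_toP, em_toP]
  constructor
  · rintro ⟨h, hc⟩
    refine ⟨(e.trans h).trans e.symm, ?_⟩
    rw [mul_inv_eq_iff_eq_mul]
    refine Homeomorph.ext fun x => ?_
    show e.symm (h (e (e.symm (f (e x))))) = e.symm (g (e (e.symm (h (e x)))))
    rw [Homeomorph.apply_symm_apply, Homeomorph.apply_symm_apply, hc]
  · rintro ⟨k, hk⟩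
    rw [mul_inv_eq_iff_eq_mul] at hk
    refine ⟨(e.symm.trans k).trans e, fun m => ?_⟩
    have h1 : k (hh e f (e.symm m)) = hh e g (k (e.symm m)) := DFunLike.congr_fun hk (e.symm m)
    rw [hh_apply, hh_apply, Homeomorph.apply_symm_apply] at h1
    show e (k (e.symm (f m))) = g (e (k (e.symm m)))
    rw [h1, Homeomorph.apply_symm_apply]

theorem main1 [IsManifold 𝓘(ℝ, E1) ∞ M] [T2Space M] [CompactSpace M]
    (hsb : @StandardBorelSpace (DM M) (evM M)) :
    ∃ (G : Type) (_ : Group G) (_ : TopologicalSpace G) (_ : IsTopologicalGroup G)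
      (_ : PolishSpace G) (_ : MulAction G (DM M)),
      (@Measurable (G × DM M) (DM M) (@Prod.instMeasurableSpace G (DM M) (borel G) (evM M)) (evM M)
        fun p => p.1 • p.2) ∧
      ∀ f g : DM M, (∃ h : M ≃ₜ M, ∀ m, h (f m) = g (h m)) ↔ ∃ a : G, a • f = g := by
  obtain ⟨n, e, h1, h2⟩ := model (M := M)
  have he : Md n e := ⟨h1, h2⟩
  let _ := evM M
  have h3 : StandardBorelSpace (PD n) := sb_of_equiv (eqP he)
  have h4 := isTopologicalGroupX (n := n)
  have h5 := polishSpaceX (n := n)
  obtain ⟨act, ham, hao⟩ := mainP (n := n)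
  let act' : MulAction (Gp n) (DM M) :=
    { smul := fun a f => (eqP he).symm (act.smul a (eqP he f))
      one_smul := fun f => by
        have h6 : act.smul 1 (eqP he f) = eqP he f := act.one_smul _
        show (eqP he).symm (act.smul 1 (eqP he f)) = f
        rw [h6, MeasurableEquiv.symm_apply_apply]
      mul_smul := fun a b f => by
        show (eqP he).symm (act.smul (a * b) (eqP he f)) =
          (eqP he).symm (act.smul a (eqP he ((eqP he).symm (act.smul b (eqP he f)))))
        rw [MeasurableEquiv.apply_symm_apply]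
        congr 1
        exact act.mul_smul a b _ }
  refine ⟨Gp n, inferInstance, inferInstance, inferInstance, inferInstance, act', ?_, fun f g => ?_⟩
  · have h6 : borel (Gp n) = Prod.instMeasurableSpace := (Prod.borelSpace.measurable_eq).symm
    rw [h6]
    show Measurable fun p : Gp n × DM M => (eqP he).symm (act.smul p.1 (eqP he p.2))
    exact (eqP he).symm.measurable.comp (ham.comp
      (measurable_fst.prodMk ((eqP he).measurable.comp measurable_snd)))
  · rw [conj_iff he]
    have h6 := hao (toP he f) (toP he g)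
    rw [h6]
    refine exists_congr fun a => ?_
    constructor
    · intro h7
      show (eqP he).symm (act.smul a (toP he f)) = g
      rw [h7]
      exact (eqP he).symm_apply_apply g
    · intro h7
      have h8 : (eqP he).symm (act.smul a (toP he f)) = g := h7
      rw [← h8]
      exact ((eqP he).apply_symm_apply _).symm

end Pool.Agent.CIM
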