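import Pool.Agent.Lib.CIM.Len
import Pool.Agent.Lib.CIR.Bas

/-!
# CIM.Glo: a closed curve reparametrised by its length
-/

set_option autoImplicit false

open Set Filter Topology
open scoped ContDiff

namespace Pool.Agent.CIM

open Pool.Agent.CIR

variable {V : Type*} [NormedAddCommGroup V] [InnerProductSpace ℝ V]

theorem glo {γ : ℝ → V} (hper : ∀ x, γ (x + 1) = γ x) (hinj : ∀ x y, x < y → y < x + 1 → γ x ≠ γ y)
    (hloc : ∀ x₀, ∃ a b u κ, x₀ ∈ Ioo a b ∧ Loc γ a b u κ) :
    ∃ G : ℝ → ℝ, Pos G ∧ ∀ a b u κ, Loc γ a b u κ →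
      ∃ g : ℝ → ℝ, ∀ x ∈ Ioo a b, G x = g (u x) ∧ ContDiffAt ℝ ∞ g (u x) ∧ deriv g (u x) ≠ 0 := by
  have hfin : ∀ x y : ℝ, eVariationOn γ (Icc x y) ≠ ⊤ := by
    intro x y
    rcases le_total x y with h | h
    · refine bdd_Icc (fun x₀ => ?_) h
      obtain ⟨a, b, u, κ, hx₀, hl⟩ := hloc x₀
      exact hl.bdd hx₀
    · have h1 : (Icc x y).Subsingleton := by
        intro s hs t ht
        have h2 : s = x := le_antisymm (hs.2.trans h) hs.1
        have h3 : t = x := le_antisymm (ht.2.trans h) ht.1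
        rw [h2, h3]
      rw [eVariationOn.subsingleton γ h1]
      exact ENNReal.zero_ne_top
  have hbv : LocallyBoundedVariationOn γ univ := by
    intro a b _ _
    show eVariationOn γ (univ ∩ Icc a b) ≠ ⊤
    rw [univ_inter]
    exact hfin a b
  let A : ℝ → ℝ := fun x => variationOnFromTo γ univ 0 x
  have hA : ∀ x y : ℝ, x ≤ y → A y - A x = (eVariationOn γ (Icc x y)).toReal := by
    intro x y hxy
    have h1 := variationOnFromTo.add hbv (mem_univ (0 : ℝ)) (mem_univ x) (mem_univ y)
    have h2 : variationOnFromTo γ univ x y = (eVariationOn γ (Icc x y)).toReal := by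
      rw [variationOnFromTo.eq_of_le γ univ hxy, univ_inter]
    rw [← h2]
    show variationOnFromTo γ univ 0 y - variationOnFromTo γ univ 0 x = _
    linarith
  have hA0 : A 0 = 0 := variationOnFromTo.self γ univ 0
  have hmono : StrictMono A := by
    intro x y hxy
    obtain ⟨z, hz1, hz2⟩ := exists_between (lt_min hxy (show x < x + 1 by linarith))
    have hzy : z < y := hz2.trans_le (min_le_left _ _)
    have hz3 : z < x + 1 := hz2.trans_le (min_le_right _ _)
    have h1 : 0 < (eVariationOn γ (Icc x z)).toReal := by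
      apply ENNReal.toReal_pos _ (hfin x z)
      intro h2
      have h3 := eVariationOn.edist_le γ (left_mem_Icc.2 hz1.le) (right_mem_Icc.2 hz1.le)
      rw [h2] at h3
      exact hinj x z hz1 hz3 (edist_eq_zero.1 (le_antisymm h3 bot_le))
    have h2 := hA x z hz1.le
    have h3 := hA z y hzy.le
    have h4 : 0 ≤ (eVariationOn γ (Icc z y)).toReal := ENNReal.toReal_nonneg
    linarith
  have hloc2 : ∀ a b u κ, Loc γ a b u κ →
      ∃ g : ℝ → ℝ, ∀ x ∈ Ioo a b, A x = g (u x) ∧ ContDiffAt ℝ ∞ g (u x) ∧ 0 < deriv g (u x) :=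
    fun a b u κ hl => hl.smooth hfin hA
  have hcont : Continuous A := by
    rw [continuous_iff_continuousAt]
    intro x₀
    obtain ⟨a, b, u, κ, hx₀, hl⟩ := hloc x₀
    obtain ⟨g, hg⟩ := hloc2 a b u κ hl
    have h1 : ContinuousAt u x₀ := hl.cont.continuousAt (Ioo_mem_nhds hx₀.1 hx₀.2)
    have h2 : ContinuousAt (fun x => g (u x)) x₀ := ContinuousAt.comp (hg x₀ hx₀).2.1.continuousAt h1
    refine h2.congr ?_
    filter_upwards [Ioo_mem_nhds hx₀.1 hx₀.2] with x hx
    exact (hg x hx).1.symm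
  have hshift : ∀ x y : ℝ, x ≤ y → A (y + 1) - A (x + 1) = A y - A x := by
    intro x y hxy
    rw [hA _ _ (by linarith), hA _ _ hxy]
    congr 1
    have h1 : MonotoneOn (fun t : ℝ => t + 1) (Icc x y) := fun s _ t _ hst => by simpa using hst
    have h2 := eVariationOn.comp_eq_of_monotoneOn γ (fun t : ℝ => t + 1) h1
    rw [image_add_const_Icc] at h2
    rw [← h2]
    exact eVariationOn.congr fun t _ => hper t
  have hadd : ∀ x, A (x + 1) = A x + A 1 := by
    intro x
    rcases le_total 0 x with h | h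
    · have h1 := hshift 0 x h
      rw [hA0, zero_add] at h1
      linarith
    · have h1 := hshift x 0 h
      rw [hA0, zero_add] at h1
      linarith
  have hpos : 0 < A 1 := by
    rw [← hA0]
    exact hmono one_pos
  refine ⟨fun x => A x / A 1, ⟨hcont.div_const _, fun x y hxy => div_lt_div_of_pos_right (hmono hxy) hpos, fun x => ?_⟩,
    fun a b u κ hl => ?_⟩
  · show A (x + 1) / A 1 = A x / A 1 + 1
    rw [hadd, add_div, div_self hpos.ne']
  · obtain ⟨g, hg⟩ := hloc2 a b u κ hl
    refine ⟨fun t => g t / A 1, fun x hx => ⟨?_, (hg x hx).2.1.div_const _, ?_⟩⟩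
    · show A x / A 1 = g (u x) / A 1
      rw [(hg x hx).1]
    · rw [deriv_div_const]
      exact (div_pos (hg x hx).2.2 hpos).ne'

end Pool.Agent.CIM
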