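import Mathlib

/-!
# CIM.Len: the length function of a piecewise reparametrised smooth curve
-/

set_option autoImplicit false

open Set Filter Topology
open scoped ContDiff ENNReal NNReal

namespace Pool.Agent.CIM

variable {V : Type*} [NormedAddCommGroup V] [InnerProductSpace ℝ V]

/-- On `Ioo a b` the curve `γ` is a regular smooth curve `κ` composed with a continuous strictly increasing function. -/
structure Loc (γ : ℝ → V) (a b : ℝ) (u : ℝ → ℝ) (κ : ℝ → V) : Prop where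
  cont : ContinuousOn u (Ioo a b)
  mono : StrictMonoOn u (Ioo a b)
  sm : ∀ x ∈ Ioo a b, ContDiffAt ℝ ∞ κ (u x)
  der : ∀ x ∈ Ioo a b, deriv κ (u x) ≠ 0
  eq : ∀ x ∈ Ioo a b, γ x = κ (u x)

/-- Two-sided bounds for a curve near a point. -/
theorem strict_bounds {κ : ℝ → V} {t₀ : ℝ} (h : ContDiffAt ℝ ∞ κ t₀) {ε : ℝ} (hε : 0 < ε) :
    ∃ δ > 0, ∀ t ∈ Ioo (t₀ - δ) (t₀ + δ), ∀ t' ∈ Ioo (t₀ - δ) (t₀ + δ),
      (‖deriv κ t₀‖ - ε) * |t' - t| ≤ ‖κ t' - κ t‖ ∧ ‖κ t' - κ t‖ ≤ (‖deriv κ t₀‖ + ε) * |t' - t| := by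
  have h1 : HasStrictDerivAt κ (deriv κ t₀) t₀ := h.hasStrictDerivAt (by simp)
  have h2 := h1.isLittleO.def hε
  rw [nhds_prod_eq] at h2
  obtain ⟨s, hs, h3⟩ := eventually_prod_self_iff'.1 h2
  obtain ⟨δ, hδ, hb⟩ := Metric.mem_nhds_iff.1 hs
  refine ⟨δ, hδ, fun t ht t' ht' => ?_⟩
  have hm : ∀ t ∈ Ioo (t₀ - δ) (t₀ + δ), t ∈ s := fun t ht => hb (by
    rw [Metric.mem_ball, Real.dist_eq, abs_lt]
    constructor <;> linarith [ht.1, ht.2])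
  have h4 : ‖κ t' - κ t - (t' - t) • deriv κ t₀‖ ≤ ε * ‖t' - t‖ := by
    have := h3 t' (hm t' ht') t (hm t ht)
    simpa using this
  have h5 : ‖(t' - t) • deriv κ t₀‖ = ‖deriv κ t₀‖ * |t' - t| := by
    rw [norm_smul, Real.norm_eq_abs, mul_comm]
  rw [Real.norm_eq_abs] at h4
  constructor
  · have h6 : ‖(t' - t) • deriv κ t₀‖ ≤ ‖κ t' - κ t‖ + ‖κ t' - κ t - (t' - t) • deriv κ t₀‖ := by
      have := norm_sub_le (κ t' - κ t) (κ t' - κ t - (t' - t) • deriv κ t₀)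
      rwa [sub_sub_cancel] at this
    rw [h5] at h6
    nlinarith
  · have h6 : ‖κ t' - κ t‖ ≤ ‖κ t' - κ t - (t' - t) • deriv κ t₀‖ + ‖(t' - t) • deriv κ t₀‖ := by
      have := norm_add_le (κ t' - κ t - (t' - t) • deriv κ t₀) ((t' - t) • deriv κ t₀)
      rwa [sub_add_cancel] at this
    rw [h5] at h6
    nlinarith

/-- Bounds for the variation near a point. -/
theorem Loc.var_bounds {γ : ℝ → V} {a b : ℝ} {u : ℝ → ℝ} {κ : ℝ → V} (h : Loc γ a b u κ) {x₀ : ℝ} (hx₀ : x₀ ∈ Ioo a b)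
    {ε : ℝ} (hε : 0 < ε) : ∃ δ > 0, ∀ x y, x ≤ y → x ∈ Ioo a b → y ∈ Ioo a b →
      u x ∈ Ioo (u x₀ - δ) (u x₀ + δ) → u y ∈ Ioo (u x₀ - δ) (u x₀ + δ) →
      eVariationOn γ (Icc x y) ≤ ENNReal.ofReal ((‖deriv κ (u x₀)‖ + ε) * (u y - u x)) ∧
      ENNReal.ofReal ((‖deriv κ (u x₀)‖ - ε) * (u y - u x)) ≤ eVariationOn γ (Icc x y) := by
  obtain ⟨δ, hδ, hb⟩ := strict_bounds (h.sm x₀ hx₀) hε
  refine ⟨δ, hδ, fun x y hxy hx hy hux huy => ?_⟩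
  have hsub : Icc x y ⊆ Ioo a b := fun z hz => ⟨hx.1.trans_le hz.1, hz.2.trans_lt hy.2⟩
  have hmaps : MapsTo u (Icc x y) (Ioo (u x₀ - δ) (u x₀ + δ)) := fun z hz =>
    ⟨hux.1.trans_le (h.mono.monotoneOn hx (hsub hz) hz.1), (h.mono.monotoneOn (hsub hz) hy hz.2).trans_lt huy.2⟩
  have hle : u x ≤ u y := h.mono.monotoneOn hx hy hxy
  constructor
  · have hK : LipschitzOnWith (Real.toNNReal (‖deriv κ (u x₀)‖ + ε)) κ (Ioo (u x₀ - δ) (u x₀ + δ)) := by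
      apply LipschitzOnWith.of_dist_le_mul
      intro t ht t' ht'
      rw [dist_eq_norm, Real.dist_eq, Real.coe_toNNReal _ (by positivity)]
      exact (hb t' ht' t ht).2
    have h1 : eVariationOn γ (Icc x y) = eVariationOn (κ ∘ u) (Icc x y) :=
      eVariationOn.congr fun z hz => h.eq z (hsub hz)
    have h2 := hK.comp_eVariationOn_le hmaps
    have h3 : eVariationOn u (Icc x y) ≤ ENNReal.ofReal (u y - u x) := by
      have h4 := (h.mono.monotoneOn.mono hsub).eVariationOn_eq (left_mem_Icc.2 hxy) (right_mem_Icc.2 hxy)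
      rw [inter_self] at h4
      exact h4.le
    rw [h1]
    refine h2.trans ?_
    rw [ENNReal.ofReal_mul (by positivity)]
    have h5 : ((Real.toNNReal (‖deriv κ (u x₀)‖ + ε) : ℝ≥0) : ℝ≥0∞) = ENNReal.ofReal (‖deriv κ (u x₀)‖ + ε) := rfl
    rw [h5]
    gcongr
  · refine le_trans ?_ (eVariationOn.edist_le γ (left_mem_Icc.2 hxy) (right_mem_Icc.2 hxy))
    rw [edist_comm, edist_dist, dist_eq_norm, h.eq x hx, h.eq y hy]
    apply ENNReal.ofReal_le_ofReal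
    have h1 := (hb (u x) hux (u y) huy).1
    rwa [abs_of_nonneg (sub_nonneg.2 hle)] at h1

theorem Loc.bdd {γ : ℝ → V} {a b : ℝ} {u : ℝ → ℝ} {κ : ℝ → V} (h : Loc γ a b u κ) {x₀ : ℝ} (hx₀ : x₀ ∈ Ioo a b) :
    ∃ δ > 0, eVariationOn γ (Icc (x₀ - δ) (x₀ + δ)) ≠ ⊤ := by
  obtain ⟨δ, hδ, hb⟩ := h.var_bounds hx₀ one_pos
  have hc : ContinuousAt u x₀ := h.cont.continuousAt (Ioo_mem_nhds hx₀.1 hx₀.2)
  have h1 : ∀ᶠ x in 𝓝 x₀, u x ∈ Ioo (u x₀ - δ) (u x₀ + δ) ∧ x ∈ Ioo a b :=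
    (hc.eventually_mem (Ioo_mem_nhds (by linarith) (by linarith))).and (Ioo_mem_nhds hx₀.1 hx₀.2)
  obtain ⟨r, hr, hball⟩ := Metric.eventually_nhds_iff.1 h1
  have h2 : ∀ y, |y - x₀| ≤ r / 2 → u y ∈ Ioo (u x₀ - δ) (u x₀ + δ) ∧ y ∈ Ioo a b := fun y hy =>
    hball (by rw [Real.dist_eq]; linarith)
  have h3 := h2 (x₀ - r / 2) (by rw [abs_le]; constructor <;> linarith)
  have h4 := h2 (x₀ + r / 2) (by rw [abs_le]; constructor <;> linarith)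
  refine ⟨r / 2, by positivity, ?_⟩
  exact ne_top_of_le_ne_top ENNReal.ofReal_ne_top (hb _ _ (by linarith) h3.2 h4.2 h3.1 h4.1).1

omit [InnerProductSpace ℝ V] in
theorem bdd_Icc {γ : ℝ → V} (h : ∀ x₀, ∃ δ > 0, eVariationOn γ (Icc (x₀ - δ) (x₀ + δ)) ≠ ⊤) {c d : ℝ} (hcd : c ≤ d) :
    eVariationOn γ (Icc c d) ≠ ⊤ := by
  have hmono : ∀ {s t : Set ℝ}, s ⊆ t → eVariationOn γ t ≠ ⊤ → eVariationOn γ s ≠ ⊤ := fun hst ht =>
    ne_top_of_le_ne_top ht (eVariationOn.mono γ hst)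
  have hadd : ∀ {x y z : ℝ}, x ≤ y → y ≤ z → eVariationOn γ (Icc x y) ≠ ⊤ → eVariationOn γ (Icc y z) ≠ ⊤ →
      eVariationOn γ (Icc x z) ≠ ⊤ := by
    intro x y z hxy hyz h1 h2
    have h3 := eVariationOn.Icc_add_Icc γ (s := univ) hxy hyz (mem_univ y)
    simp only [univ_inter] at h3
    rw [← h3]
    exact ENNReal.add_ne_top.2 ⟨h1, h2⟩
  let T : Set ℝ := {t | t ∈ Icc c d ∧ eVariationOn γ (Icc c t) ≠ ⊤}
  have hcT : c ∈ T := ⟨left_mem_Icc.2 hcd, by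
    rw [Icc_self, eVariationOn.subsingleton γ subsingleton_singleton]
    exact ENNReal.zero_ne_top⟩
  have hbd : BddAbove T := ⟨d, fun t ht => ht.1.2⟩
  set m := sSup T with hm
  have hmc : c ≤ m := le_csSup hbd hcT
  have hmd : m ≤ d := csSup_le ⟨c, hcT⟩ fun t ht => ht.1.2
  obtain ⟨δ, hδ, hv⟩ := h m
  obtain ⟨t, htT, ht⟩ := exists_lt_of_lt_csSup ⟨c, hcT⟩ (show m - δ < sSup T by rw [← hm]; linarith)
  have htm : t ≤ m := le_csSup hbd htT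
  have key : ∀ y, t ≤ y → y ≤ m + δ → eVariationOn γ (Icc c y) ≠ ⊤ := by
    intro y h1 h2
    refine hadd htT.1.1 h1 htT.2 (hmono ?_ hv)
    exact Icc_subset_Icc ht.le h2
  have h5 : m = d := by
    by_contra hne
    have hlt : m < d := lt_of_le_of_ne hmd hne
    have h6 : min d (m + δ) ∈ T := ⟨⟨hmc.trans (le_min hmd (by linarith)), min_le_left _ _⟩,
      key _ (htm.trans (le_min hmd (by linarith))) (min_le_right _ _)⟩
    have h7 : min d (m + δ) ≤ m := le_csSup hbd h6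
    rcases min_le_iff.1 h7 with h8 | h8 <;> linarith
  rw [← h5]
  exact key m htm (by linarith)

/-- The length function in a local coordinate. -/
theorem Loc.smooth {γ : ℝ → V} {a b : ℝ} {u : ℝ → ℝ} {κ : ℝ → V} (h : Loc γ a b u κ) {A : ℝ → ℝ}
    (hfin : ∀ x y : ℝ, eVariationOn γ (Icc x y) ≠ ⊤)
    (hA : ∀ x y : ℝ, x ≤ y → A y - A x = (eVariationOn γ (Icc x y)).toReal) :
    ∃ g : ℝ → ℝ, ∀ x ∈ Ioo a b, A x = g (u x) ∧ ContDiffAt ℝ ∞ g (u x) ∧ 0 < deriv g (u x) := by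
  let v : ℝ → ℝ := Function.invFunOn u (Ioo a b)
  have hv : ∀ x ∈ Ioo a b, v (u x) = x := fun x hx => h.mono.injOn.leftInvOn_invFunOn hx
  let g : ℝ → ℝ := fun t => A (v t)
  have hg : ∀ x ∈ Ioo a b, g (u x) = A x := fun x hx => by
    show A (v (u x)) = A x
    rw [hv x hx]
  have hopen : IsOpen (u '' Ioo a b) := by
    rw [isOpen_iff_mem_nhds]
    rintro _ ⟨x, hx, rfl⟩
    obtain ⟨x₁, h1, h1'⟩ := exists_between hx.1
    obtain ⟨x₂, h2, h2'⟩ := exists_between hx.2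
    have hx₁ : x₁ ∈ Ioo a b := ⟨h1, h1'.trans hx.2⟩
    have hx₂ : x₂ ∈ Ioo a b := ⟨hx.1.trans h2, h2'⟩
    have hsub : Icc x₁ x₂ ⊆ Ioo a b := fun z hz => ⟨h1.trans_le hz.1, hz.2.trans_lt h2'⟩
    have h3 : Icc (u x₁) (u x₂) ⊆ u '' Icc x₁ x₂ :=
      intermediate_value_Icc (h1'.trans h2).le (h.cont.mono hsub)
    exact mem_of_superset (Icc_mem_nhds (h.mono hx₁ hx h1') (h.mono hx hx₂ h2)) (h3.trans (image_mono hsub))
  have hder : ∀ x₀ ∈ Ioo a b, HasDerivAt g ‖deriv κ (u x₀)‖ (u x₀) := by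
    intro x₀ hx₀
    rw [hasDerivAt_iff_isLittleO, Asymptotics.isLittleO_iff]
    intro ε hε
    obtain ⟨δ, hδ, hb⟩ := h.var_bounds hx₀ hε
    have h0 : Ioo (u x₀ - δ) (u x₀ + δ) ∈ 𝓝 (u x₀) := Ioo_mem_nhds (by linarith) (by linarith)
    have h1 : ∀ᶠ t in 𝓝 (u x₀), t ∈ Ioo (u x₀ - δ) (u x₀ + δ) ∧ t ∈ u '' Ioo a b :=
      Filter.inter_mem h0 (hopen.mem_nhds ⟨x₀, hx₀, rfl⟩)
    filter_upwards [h1] with t ht
    obtain ⟨ht1, x, hx, rfl⟩ := ht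
    have hu₀ : u x₀ ∈ Ioo (u x₀ - δ) (u x₀ + δ) := ⟨by linarith, by linarith⟩
    rw [hg x hx, hg x₀ hx₀, smul_eq_mul, Real.norm_eq_abs, Real.norm_eq_abs]
    rcases le_total x₀ x with h2 | h2
    · obtain ⟨h3, h4⟩ := hb x₀ x h2 hx₀ hx hu₀ ht1
      have hle : u x₀ ≤ u x := h.mono.monotoneOn hx₀ hx h2
      have h5 := ENNReal.toReal_mono ENNReal.ofReal_ne_top h3
      rw [← hA _ _ h2, ENNReal.toReal_ofReal (by nlinarith [norm_nonneg (deriv κ (u x₀))])] at h5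
      have h6 : (‖deriv κ (u x₀)‖ - ε) * (u x - u x₀) ≤ A x - A x₀ := by
        rw [hA _ _ h2]
        exact (ENNReal.ofReal_le_iff_le_toReal (hfin _ _)).1 h4
      rw [abs_le, abs_of_nonneg (sub_nonneg.2 hle)]
      constructor <;> nlinarith
    · obtain ⟨h3, h4⟩ := hb x x₀ h2 hx hx₀ ht1 hu₀
      have hle : u x ≤ u x₀ := h.mono.monotoneOn hx hx₀ h2
      have h5 := ENNReal.toReal_mono ENNReal.ofReal_ne_top h3
      rw [← hA _ _ h2, ENNReal.toReal_ofReal (by nlinarith [norm_nonneg (deriv κ (u x₀))])] at h5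
      have h6 : (‖deriv κ (u x₀)‖ - ε) * (u x₀ - u x) ≤ A x₀ - A x := by
        rw [hA _ _ h2]
        exact (ENNReal.ofReal_le_iff_le_toReal (hfin _ _)).1 h4
      rw [abs_le, abs_of_nonpos (sub_nonpos.2 hle)]
      constructor <;> nlinarith
  have hsm : ContDiffOn ℝ ∞ g (u '' Ioo a b) := by
    rw [contDiffOn_infty_iff_deriv_of_isOpen hopen]
    constructor
    · rintro _ ⟨x, hx, rfl⟩
      exact (hder x hx).differentiableAt.differentiableWithinAt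
    · have h1 : ContDiffOn ℝ ∞ (fun t => ‖deriv κ t‖) (u '' Ioo a b) := by
        rintro _ ⟨x, hx, rfl⟩
        have h2 : ContDiffAt ℝ ∞ (deriv κ) (u x) := by
          have h3 : ContDiffAt ℝ ∞ (fderiv ℝ κ) (u x) := (h.sm x hx).fderiv_right (by simp)
          exact h3.clm_apply contDiffAt_const
        exact (h2.norm ℝ (h.der x hx)).contDiffWithinAt
      refine h1.congr ?_
      rintro _ ⟨x, hx, rfl⟩
      exact (hder x hx).deriv
  refine ⟨g, fun x hx => ⟨(hg x hx).symm, (hsm _ ⟨x, hx, rfl⟩).contDiffAt (hopen.mem_nhds ⟨x, hx, rfl⟩), ?_⟩⟩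
  rw [(hder x hx).deriv]
  exact norm_pos_iff.2 (h.der x hx)

end Pool.Agent.CIM
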