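import Pool.Agent.Lib.CIR.Final

/-!
# CIM.Min: minimal homeomorphisms of the circle
-/

set_option autoImplicit false

open Set
open scoped ContDiff Manifold

namespace Pool.Agent.CIM

open Pool.Agent.CIR

/-- Every orbit is dense. -/
def Mn (h : H) : Prop := ∀ z, Dense (Set.range fun k : ℤ => (h ^ k) z)

theorem coe_npow (h : H) (k : ℕ) : ⇑(h ^ k) = h^[k] := by
  induction k with
  | zero => rfl
  | succ k ih =>
    rw [pow_succ, Function.iterate_succ, ← ih]
    rfl

theorem Mn.not_per {h : H} (hm : Mn h) : ¬ Per h := by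
  rintro ⟨n, hn, z, hz⟩
  have h0 : (h ^ n) z = z := by rw [coe_npow, hz]
  have h1 : ∀ m : ℤ, (h ^ ((n : ℤ) * m)) z = z := by
    intro m
    rw [zpow_mul, zpow_natCast]
    have h2 : ∀ j : ℕ, ((h ^ n) ^ j) z = z := by
      intro j
      induction j with
      | zero => rfl
      | succ j ih =>
        rw [pow_succ]
        show ((h ^ n) ^ j) ((h ^ n) z) = z
        rw [h0, ih]
    rcases Int.eq_nat_or_neg m with ⟨j, rfl | rfl⟩
    · rw [zpow_natCast, h2]
    · rw [zpow_neg, zpow_natCast]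
      show ((h ^ n) ^ j).symm z = z
      rw [Homeomorph.symm_apply_eq, h2]
  have h3 : (Set.range fun k : ℤ => (h ^ k) z) ⊆ (fun j : ℕ => (h ^ j) z) '' (Set.Iio n) := by
    rintro _ ⟨k, rfl⟩
    have hn0 : (n : ℤ) ≠ 0 := by exact_mod_cast hn.ne'
    have h4 := Int.emod_add_mul_ediv k n
    refine ⟨(k % n).toNat, ?_, ?_⟩
    · show (k % n).toNat < n
      have h5 := Int.emod_lt_of_pos k (by exact_mod_cast hn : (0 : ℤ) < n)
      have h6 := Int.emod_nonneg k hn0
      omega
    · show (h ^ (k % n).toNat) z = (h ^ k) z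
      have h6 := Int.emod_nonneg k hn0
      have h7 : ((k % n).toNat : ℤ) = k % n := Int.toNat_of_nonneg h6
      conv_rhs => rw [← h4, zpow_add]
      show _ = (h ^ (k % (n : ℤ))) ((h ^ ((n : ℤ) * (k / n))) z)
      rw [h1, ← h7, zpow_natCast, h7]
  have h4 : (Set.range fun k : ℤ => (h ^ k) z).Finite := ((Set.finite_Iio n).image _).subset h3
  have h5 : (Set.range fun k : ℤ => (h ^ k) z) = Set.univ := by
    rw [← h4.isClosed.closure_eq]
    exact (hm z).closure_eq
  rw [h5] at h4
  have : Infinite Circle := Infinite.of_injective cay cay_injective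
  exact Set.infinite_univ h4

theorem zpow_conj {f g : H} {k : H} (h : ∀ z, k (f z) = g (k z)) (m : ℤ) (z : Circle) :
    k ((f ^ m) z) = (g ^ m) (k z) := by
  have h1 : k * f = g * k := Homeomorph.ext h
  have h2 : k * f ^ m = g ^ m * k := by
    have h3 : SemiconjBy k f g := h1
    exact h3.zpow_right m
  exact DFunLike.congr_fun h2 z

theorem mn_of_cj {f g : H} (h : Cj f g) (hf : Mn f) : Mn g := by
  obtain ⟨k, hk⟩ := h
  intro z
  have h1 : (Set.range fun m : ℤ => (g ^ m) z) = k '' (Set.range fun m : ℤ => (f ^ m) (k.symm z)) := by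
    rw [← Set.range_comp]
    congr 1
    funext m
    show _ = k ((f ^ m) (k.symm z))
    rw [zpow_conj hk, Homeomorph.apply_symm_apply]
  rw [h1]
  exact k.surjective.denseRange.dense_image k.continuous (hf _)

theorem rotH_zpow (a : ℝ) (m : ℤ) (z : Circle) : (rotH a ^ m) z = E (m * a) * z := by
  have h1 : ∀ (j : ℕ) (z : Circle), (rotH a ^ j) z = E (j * a) * z := by
    intro j z
    rw [coe_npow, rotH_iter]
  rcases Int.eq_nat_or_neg m with ⟨j, rfl | rfl⟩
  · rw [zpow_natCast, h1]
    simp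
  · rw [zpow_neg, zpow_natCast]
    show (rotH a ^ j).symm z = _
    rw [Homeomorph.symm_apply_eq, h1, ← mul_assoc, ← E_add]
    have h2 : (j : ℝ) * a + ((-(j : ℤ) : ℤ) : ℝ) * a = 0 := by push_cast; ring
    rw [h2, E_zero, one_mul]

theorem mn_rot {a : ℝ} (ha : Irrational a) : Mn (rotH a) := by
  intro z
  obtain ⟨x, rfl⟩ := E_surj z
  have h1 : Dense (AddSubgroup.closure {a, 1} : Set ℝ) := by
    rw [dense_addSubgroupClosure_pair_iff, div_one]
    exact ha
  have hs : Function.Surjective fun y : ℝ => E (y + x) := by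
    intro w
    obtain ⟨y, rfl⟩ := E_surj w
    exact ⟨y - x, by show E (y - x + x) = E y; rw [sub_add_cancel]⟩
  have hc : Continuous fun y : ℝ => E (y + x) := by
    have := continuous_E
    fun_prop
  refine (hs.denseRange.dense_image hc h1).mono ?_
  rintro _ ⟨y, hy, rfl⟩
  obtain ⟨m, k, rfl⟩ := AddSubgroup.mem_closure_pair.1 hy
  refine ⟨m, ?_⟩
  show (rotH a ^ m) (E x) = E (m • a + k • 1 + x)
  rw [rotH_zpow, ← E_add, E_eq_iff]
  refine ⟨-k, ?_⟩
  simp only [zsmul_eq_mul]
  push_cast
  ring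

/-- A smooth diffeomorphism has a periodic point or is minimal. -/
theorem dif_alt (f : Dif) : Per f ∨ Mn (hm f) := by
  by_cases hp : Per f
  · exact Or.inl hp
  · right
    obtain ⟨rot, α, _, _, hr, hα, _⟩ := Pool.Agent.CIR.rotation
    obtain ⟨h1, _, _, h4⟩ := hα f hp
    have h5 : ⇑(rot (α f)) = ⇑(rotH (α f)) := funext (hr _)
    rw [h5] at h4
    exact mn_of_cj h4.symm (mn_rot h1)

theorem measurableSet_mn : MeasurableSet {h : H | Mn h} := by
  have h1 : {h : H | Mn h} = ⋂ s ∈ TopologicalSpace.countableBasis Circle,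
      {h : H | ∀ z, ∃ m : ℤ, (h ^ m) z ∈ s} := by
    ext h
    simp only [mem_ofPred_eq, mem_iInter]
    constructor
    · intro hm s hs z
      obtain ⟨_, ⟨m, rfl⟩, hy⟩ := (hm z).exists_mem_open ((TopologicalSpace.isBasis_countableBasis Circle).isOpen hs)
        (TopologicalSpace.nonempty_of_mem_countableBasis hs)
      exact ⟨m, hy⟩
    · intro hm z
      rw [(TopologicalSpace.isBasis_countableBasis Circle).dense_iff]
      intro s hs _
      obtain ⟨m, h2⟩ := hm s hs z
      exact ⟨_, h2, m, rfl⟩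
  rw [h1]
  refine MeasurableSet.biInter (TopologicalSpace.countable_countableBasis Circle) fun s hs => ?_
  have hso : IsOpen s := (TopologicalSpace.isBasis_countableBasis Circle).isOpen hs
  have h2 : {h : H | ∀ z, ∃ m : ℤ, (h ^ m) z ∈ s}ᶜ =
      Prod.fst '' {p : H × Circle | ∀ m : ℤ, (p.1 ^ m) p.2 ∈ sᶜ} := by
    ext h
    simp only [mem_compl_iff, mem_ofPred_eq, mem_image, Prod.exists, exists_and_right, exists_eq_right, not_forall,
      not_exists]
  rw [← MeasurableSet.compl_iff, h2]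
  apply IsClosed.measurableSet
  apply isClosedMap_fst_of_compactSpace
  have h3 : {p : H × Circle | ∀ m : ℤ, (p.1 ^ m) p.2 ∈ sᶜ} = ⋂ m : ℤ, {p : H × Circle | (p.1 ^ m) p.2 ∈ sᶜ} := by
    ext p
    simp only [mem_ofPred_eq, mem_iInter]
  rw [h3]
  refine isClosed_iInter fun m => ?_
  have := isTopologicalGroup
  have h4 : Continuous fun p : H × Circle => (p.1 ^ m) p.2 :=
    continuous_apply_uncurry.comp (((continuous_zpow m).comp continuous_fst).prodMk continuous_snd)
  exact hso.isClosed_compl.preimage h4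

end Pool.Agent.CIM
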