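import Pool.Agent.Lib.CIM.Top

/-!
# CIM.Ret: return maps
-/

set_option autoImplicit false

open Set
open scoped ContDiff Manifold

namespace Pool.Agent.CIM

open Pool.Agent.CIR

variable {n : ℕ}

theorem sg_cp_unique {h : HX n} {σ : Equiv.Perm (Fin n)} {f : Fin n → H} (hh : ∀ i z, h (i, z) = (σ i, f i z)) :
    sg h = σ ∧ cp h = f := by
  have h1 : ∀ i z, (sg h i, cp h i z) = (σ i, f i z) := fun i z => by rw [← hx_apply, hh]
  refine ⟨Equiv.ext fun i => (Prod.ext_iff.1 (h1 i 1)).1, ?_⟩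
  funext i
  exact Homeomorph.ext fun z => (Prod.ext_iff.1 (h1 i z)).2

theorem sg_mk (σ : Equiv.Perm (Fin n)) (f : Fin n → H) : sg (mk σ f) = σ := (sg_cp_unique (mk_apply σ f)).1

theorem cp_mk (σ : Equiv.Perm (Fin n)) (f : Fin n → H) : cp (mk σ f) = f := (sg_cp_unique (mk_apply σ f)).2

theorem ext_hx {g h : HX n} (h1 : sg g = sg h) (h2 : ∀ i, cp g i = cp h i) : g = h := by
  rw [← mk_sg_cp g, ← mk_sg_cp h, h1, funext h2]

theorem sg_mul (g h : HX n) : sg (g * h) = sg g * sg h := by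
  refine (sg_cp_unique (σ := sg g * sg h) (f := fun i => cp g (sg h i) * cp h i) fun i z => ?_).1
  show g (h (i, z)) = _
  rw [hx_apply h, hx_apply g]
  rfl

theorem cp_mul (g h : HX n) (i : Fin n) : cp (g * h) i = cp g (sg h i) * cp h i := by
  refine congrFun (sg_cp_unique (σ := sg g * sg h) (f := fun i => cp g (sg h i) * cp h i) fun i z => ?_).2 i
  show g (h (i, z)) = _
  rw [hx_apply h, hx_apply g]
  rfl

theorem sg_one : sg (1 : HX n) = 1 := (sg_cp_unique (σ := 1) (f := fun _ => 1) fun _ _ => rfl).1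

theorem cp_one (i : Fin n) : cp (1 : HX n) i = 1 :=
  congrFun (sg_cp_unique (h := (1 : HX n)) (σ := 1) (f := fun _ => 1) fun _ _ => rfl).2 i

theorem sg_inv (g : HX n) : sg g⁻¹ = (sg g)⁻¹ := by
  rw [eq_inv_iff_mul_eq_one, ← sg_mul, inv_mul_cancel, sg_one]

theorem cp_inv (g : HX n) (i : Fin n) : cp g⁻¹ (sg g i) = (cp g i)⁻¹ := by
  rw [eq_inv_iff_mul_eq_one, ← cp_mul, inv_mul_cancel, cp_one]

theorem sg_pow (g : HX n) (k : ℕ) : sg (g ^ k) = sg g ^ k := by
  induction k with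
  | zero => rw [pow_zero, pow_zero, sg_one]
  | succ k ih => rw [pow_succ, pow_succ, sg_mul, ih]

theorem inv_app (τ : Equiv.Perm (Fin n)) (i : Fin n) : τ⁻¹ (τ i) = i := τ.symm_apply_apply i

/-- The length of the cycle of `i`. -/
noncomputable def kk (σ : Equiv.Perm (Fin n)) (i : Fin n) : ℕ := Function.minimalPeriod σ i

theorem kk_pos (σ : Equiv.Perm (Fin n)) (i : Fin n) : 0 < kk σ i := by
  apply Function.minimalPeriod_pos_of_mem_periodicPts
  have h1 : IsOfFinOrder σ := isOfFinOrder_of_finite σ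
  obtain ⟨k, hk, h2⟩ := isOfFinOrder_iff_pow_eq_one.1 h1
  refine ⟨k, hk, ?_⟩
  show σ^[k] i = i
  rw [← Equiv.Perm.coe_pow, h2]
  rfl

theorem pow_kk (σ : Equiv.Perm (Fin n)) (i : Fin n) : (σ ^ kk σ i) i = i := by
  rw [Equiv.Perm.coe_pow]
  exact Function.isPeriodicPt_minimalPeriod σ i

/-- The return map of the circle `i`. -/
noncomputable def ret (h : HX n) (i : Fin n) : H := cp (h ^ kk (sg h) i) i

theorem pow_apply (h : HX n) (i : Fin n) (z : Circle) : (h ^ kk (sg h) i) (i, z) = (i, ret h i z) := by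
  rw [hx_apply, sg_pow, pow_kk]
  rfl

theorem kk_conj (σ τ : Equiv.Perm (Fin n)) (i : Fin n) : kk (τ * σ * τ⁻¹) (τ i) = kk σ i := by
  unfold kk
  apply Nat.dvd_antisymm
  · apply Function.IsPeriodicPt.minimalPeriod_dvd
    show (τ * σ * τ⁻¹)^[_] (τ i) = τ i
    rw [← Equiv.Perm.coe_pow, conj_pow]
    show τ ((σ ^ _) (τ⁻¹ (τ i))) = τ i
    rw [inv_app]
    congr 1
    exact pow_kk σ i
  · apply Function.IsPeriodicPt.minimalPeriod_dvd
    show σ^[_] i = i
    rw [← Equiv.Perm.coe_pow]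
    have h1 := pow_kk (τ * σ * τ⁻¹) (τ i)
    rw [conj_pow] at h1
    have h2 : τ ((σ ^ kk (τ * σ * τ⁻¹) (τ i)) (τ⁻¹ (τ i))) = τ i := h1
    rw [inv_app] at h2
    exact τ.injective h2

theorem ret_conj (g h : HX n) (i : Fin n) : ret (g * h * g⁻¹) (sg g i) = cp g i * ret h i * (cp g i)⁻¹ := by
  unfold ret
  rw [sg_mul, sg_mul, sg_inv, kk_conj, conj_pow, cp_mul, cp_inv, sg_inv, inv_app, cp_mul,
    sg_pow, pow_kk]

theorem measurable_ret (i : Fin n) : Measurable fun h : HX n => ret h i := by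
  have h1 := isTopologicalGroupX (n := n)
  have h2 := polishSpaceX (n := n)
  have h3 : ∀ k : ℕ, Measurable fun h : HX n => cp (h ^ k) i := fun k => by
    have h4 : Measurable fun h : HX n => h ^ k := (continuous_pow k).measurable
    exact (measurable_cp i).comp h4
  have h5 : Measurable fun h : HX n => kk (sg h) i :=
    (measurable_from_top (f := fun s : Equiv.Perm (Fin n) => kk s i)).comp measurable_sg
  have h6 : Measurable fun p : ℕ × HX n => cp (p.2 ^ p.1) i :=
    measurable_from_prod_countable_right fun k => h3 k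
  exact h6.comp (h5.prodMk measurable_id)

end Pool.Agent.CIM
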