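import Pool.Agent.Lib.CIM.Uni
import Pool.Agent.Lib.CIM.Ret
import Pool.Agent.Lib.P9Q.K6
import Pool.Agent.Lib.P9Q.K7

/-!
# CIM.Mod: closed one-manifolds are disjoint unions of circles, smoothly
-/

set_option autoImplicit false

open Set Filter Topology
open scoped ContDiff Manifold

namespace Pool.Agent.CIM

open Pool.Agent.CIR

theorem coe_ne {x y : ℝ} (h : x < y) (h' : y < x + 1) : (x : AddCircle (1 : ℝ)) ≠ (y : AddCircle (1 : ℝ)) := by
  intro he
  rw [AddCircle.coe_eq_coe_iff_of_mem_Ico (a := x) (p := (1 : ℝ)) ⟨le_rfl, by linarith⟩ ⟨h.le, h'⟩] at he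
  exact h.ne he

/-- The additive circle as the unit circle. -/
noncomputable def tc : AddCircle (1 : ℝ) ≃ₜ Circle := AddCircle.homeomorphCircle one_ne_zero

theorem tc_coe (x : ℝ) : tc (x : AddCircle (1 : ℝ)) = E x := by
  show AddCircle.homeomorphCircle one_ne_zero (x : AddCircle (1 : ℝ)) = E x
  rw [AddCircle.homeomorphCircle_apply, AddCircle.toCircle_apply_mk]
  unfold E
  rw [div_one]

variable {M : Type*} [TopologicalSpace M] [ChartedSpace E1 M] [IsManifold 𝓘(ℝ, E1) ∞ M] [T2Space M] [CompactSpace M]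

theorem model_ne [Nonempty M] : ∃ (n : ℕ) (e : X n ≃ₜ M),
    (∀ i, ContMDiff 𝓘(ℝ, E1) 𝓘(ℝ, E1) ∞ fun z : Circle => e (i, z)) ∧
    ContMDiff 𝓘(ℝ, E1) 𝓘(ℝ, E1) ∞ fun m => (e.symm m).2 := by
  obtain ⟨n, _, ⟨φ⟩⟩ := Pool.Agent.Lib.P9Q.classify (Pool.Agent.Lib.P9Q.arcs_of_charted (M := M))
  let p : Fin n → ℝ → M := fun i x => φ.symm (i, (x : AddCircle (1 : ℝ)))
  have hpc : ∀ i, Continuous (p i) := fun i =>
    φ.symm.continuous.comp (continuous_const.prodMk (AddCircle.continuous_mk' 1))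
  have hper : ∀ i x, p i (x + 1) = p i x := fun i x => by
    show φ.symm (i, ((x + 1 : ℝ) : AddCircle (1 : ℝ))) = φ.symm (i, (x : AddCircle (1 : ℝ)))
    rw [AddCircle.coe_add_period]
  have hinj : ∀ i x y, x < y → y < x + 1 → p i x ≠ p i y := by
    intro i x y h h' he
    exact coe_ne h h' (Prod.ext_iff.1 (φ.symm.injective he)).2
  choose G hG hG1 hG2 using fun i => uni (hpc i) (hper i) (hinj i)
  choose k hk using fun i => exists_hom (Or.inl (hG i))
  let φ' : M ≃ₜ X n := φ.trans ((Homeomorph.refl (Fin n)).prodCongr tc)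
  have hφ' : ∀ i x, φ'.symm (i, E x) = p i x := by
    intro i x
    rw [Homeomorph.symm_apply_eq]
    show (i, E x) = (Homeomorph.refl (Fin n)).prodCongr tc (φ (φ.symm (i, (x : AddCircle (1 : ℝ)))))
    rw [Homeomorph.apply_symm_apply, ← tc_coe]
    rfl
  let e : X n ≃ₜ M := (mk 1 k).symm.trans φ'.symm
  have he : ∀ i x, e (i, E (G i x)) = p i x := by
    intro i x
    show φ'.symm ((mk 1 k).symm (i, E (G i x))) = p i x
    have h1 : (mk 1 k).symm (i, E (G i x)) = (i, E x) := by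
      rw [Homeomorph.symm_apply_eq, mk_apply, ← hk]
      rfl
    rw [h1, hφ']
  refine ⟨n, e, fun i z₀ => ?_, fun m₀ => ?_⟩
  · obtain ⟨y₀, rfl⟩ := E_surj z₀
    obtain ⟨x₀, rfl⟩ := (hG i).surj y₀
    have h1 : (fun z : Circle => e (i, z)) = fun z => p i ((hG i).oi.symm (SmoAAux.sec (G i x₀) z)) := by
      funext z
      rw [← he]
      have h2 : G i ((hG i).oi.symm (SmoAAux.sec (G i x₀) z)) = SmoAAux.sec (G i x₀) z :=
        (hG i).oi.apply_symm_apply _
      rw [h2, SmoAAux.E_sec]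
    rw [h1]
    have h3 : ContMDiffAt 𝓘(ℝ, ℝ) 𝓘(ℝ, E1) ∞ (fun y => p i ((hG i).oi.symm y))
        (SmoAAux.sec (G i x₀) (E (G i x₀))) := by
      rw [SmoAAux.sec_E (by simp)]
      exact hG1 i x₀
    exact ContMDiffAt.comp (g := fun y => p i ((hG i).oi.symm y)) (f := SmoAAux.sec (G i x₀)) (E (G i x₀)) h3
      (SmoAAux.contMDiffAt_sec (G i x₀))
  · obtain ⟨⟨i, z⟩, rfl⟩ := e.surjective m₀
    obtain ⟨y₀, rfl⟩ := E_surj z
    obtain ⟨x₀, rfl⟩ := (hG i).surj y₀
    rw [he]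
    obtain ⟨ψ, hψ, hψe⟩ := hG2 i x₀
    have h1 : ContMDiffAt 𝓘(ℝ, E1) 𝓘(ℝ, E1) ∞ (fun m => E (ψ m)) (p i x₀) :=
      ContMDiffAt.comp (g := E) (f := ψ) (p i x₀) (SmoAAux.contMDiff_E _) hψ
    refine h1.congr_of_eventuallyEq ?_
    have hopen : IsOpenMap (p i) := by
      have h2 : IsOpenMap fun x : ℝ => ((i, (x : AddCircle (1 : ℝ))) : Fin n × AddCircle (1 : ℝ)) := by
        intro U hU
        have h3 : IsOpen ((fun x : ℝ => (x : AddCircle (1 : ℝ))) '' U) := QuotientAddGroup.isOpenMap_coe U hU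
        have h4 : (fun x : ℝ => ((i, (x : AddCircle (1 : ℝ))) : Fin n × AddCircle (1 : ℝ))) '' U =
            {i} ×ˢ ((fun x : ℝ => (x : AddCircle (1 : ℝ))) '' U) := by
          ext q
          constructor
          · rintro ⟨x, hx, rfl⟩
            exact ⟨rfl, x, hx, rfl⟩
          · rintro ⟨h5, x, hx, h6⟩
            exact ⟨x, hx, Prod.ext h5.symm h6⟩
        rw [h4]
        exact (isOpen_discrete {i}).prod h3
      exact φ.symm.isOpenMap.comp h2
    apply hopen.nhds_le x₀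
    show ∀ᶠ x in 𝓝 x₀, (e.symm (p i x)).2 = E (ψ (p i x))
    filter_upwards [hψe] with x hx
    rw [hx, ← he, Homeomorph.symm_apply_apply]

theorem model : ∃ (n : ℕ) (e : X n ≃ₜ M),
    (∀ i, ContMDiff 𝓘(ℝ, E1) 𝓘(ℝ, E1) ∞ fun z : Circle => e (i, z)) ∧
    ContMDiff 𝓘(ℝ, E1) 𝓘(ℝ, E1) ∞ fun m => (e.symm m).2 := by
  rcases isEmpty_or_nonempty M with hM | hM
  · have h0 : IsEmpty (X 0) := ⟨fun x => x.1.elim0⟩
    have hd : DiscreteTopology (X 0) := Subsingleton.discreteTopology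
    have hd' : DiscreteTopology M := Subsingleton.discreteTopology
    let e : X 0 ≃ₜ M :=
      { toEquiv := Equiv.equivOfIsEmpty (X 0) M
        continuous_toFun := continuous_of_discreteTopology
        continuous_invFun := continuous_of_discreteTopology }
    exact ⟨0, e, fun i => i.elim0, fun m => (hM.false m).elim⟩
  · exact model_ne

end Pool.Agent.CIM
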