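import Pool.Agent.Lib.CIM.Min

/-!
# CIM.RotM: minimal homeomorphisms of the circle are conjugate to rotations, measurably
-/

set_option autoImplicit false

open Set
open scoped ContDiff Manifold

namespace Pool.Agent.CIM

open Pool.Agent.CIR

theorem lft_zpow {h : H} {F : ℝ → ℝ} (hF : Pos F) (hl : Lft h F) (m : ℤ) (x : ℝ) :
    ∃ y, E y = (h ^ m) (E x) ∧ ∀ (Φ : ℝ → ℝ) (τ : ℝ), (∀ x, Φ (F x) = Φ x + τ) → Φ y = Φ x + m * τ := by
  induction m using Int.induction_on with
  | zero => exact ⟨x, rfl, fun Φ τ _ => by simp⟩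
  | succ k ih =>
    obtain ⟨y, hy, h1⟩ := ih
    refine ⟨F y, ?_, fun Φ τ hΦ => ?_⟩
    · rw [hl, hy, zpow_add, zpow_one]
      rw [(Commute.refl h).zpow_left k |>.eq]
      rfl
    · rw [hΦ, h1 Φ τ hΦ]
      push_cast
      ring
  | pred k ih =>
    obtain ⟨y, hy, h1⟩ := ih
    obtain ⟨w, rfl⟩ := hF.surj y
    refine ⟨w, ?_, fun Φ τ hΦ => ?_⟩
    · rw [hl] at hy
      rw [sub_eq_add_neg, add_comm, zpow_add, zpow_neg_one]
      show _ = h.symm ((h ^ (-(k : ℤ))) (E x))
      rw [← hy, Homeomorph.symm_apply_apply]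
    · have h2 := h1 Φ τ hΦ
      rw [hΦ] at h2
      have h3 : Φ w = Φ x + ((-(k : ℤ) : ℤ) : ℝ) * τ - τ := by linarith
      rw [h3]
      push_cast
      ring

/-- The semiconjugacy of a minimal homeomorphism to a translation is a conjugacy. -/
theorem mn_semi {h : H} {F : ℝ → ℝ} (hF : Pos F) (hl : Lft h F) (hm : Mn h)
    (hτ : Irrational hF.cdl.translationNumber) :
    ∃ Ψ, Pos Ψ ∧ ∀ x, Ψ (F x) = Ψ x + hF.cdl.translationNumber := by
  have hb2 : Function.Bijective ((CircleDeg1Lift.translate (Multiplicative.ofAdd hF.cdl.translationNumber) :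
      CircleDeg1Liftˣ) : CircleDeg1Lift) := CircleDeg1Lift.isUnit_iff_bijective.1 (Units.isUnit _)
  obtain ⟨Φ, hΦ⟩ := CircleDeg1Lift.semiconj_of_bijective_of_translationNumber_eq (f₁ := hF.cdl)
    hF.bij hb2 (by rw [CircleDeg1Lift.translationNumber_translate])
  have hΦF : ∀ x, Φ (F x) = Φ x + hF.cdl.translationNumber := fun x => by
    have h := hΦ x
    rw [CircleDeg1Lift.translate_apply, add_comm] at h
    exact h
  have hst : StrictMono Φ := by
    refine Φ.monotone.strictMono_of_injective ?_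
    by_contra hni
    have h1 : ∃ a b : ℝ, a < b ∧ Φ a = Φ b := by
      rw [Function.Injective] at hni
      push Not at hni
      obtain ⟨a, b, h2, h3⟩ := hni
      rcases lt_or_gt_of_ne h3 with h4 | h4
      · exact ⟨a, b, h4, h2⟩
      · exact ⟨b, a, h4, h2.symm⟩
    obtain ⟨a, b, hab, h2⟩ := h1
    have hconst : ∀ t ∈ Icc a b, Φ t = Φ a := fun t ht =>
      le_antisymm (h2 ▸ Φ.monotone ht.2) (Φ.monotone ht.1)
    let c := (a + b) / 2
    -- an open set of the circle: the image of `Ioo a b` without `E c`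
    have hE : IsOpenMap E := by
      have h3 : IsOpenMap Circle.exp := isLocalHomeomorph_circleExp.isOpenMap
      have h4 : IsOpenMap fun x : ℝ => 2 * Real.pi * x :=
        (Homeomorph.mulLeft₀ (2 * Real.pi) (by positivity)).isOpenMap
      exact h3.comp h4
    have hc : a < c ∧ c < b := ⟨by show a < (a + b) / 2; linarith, by show (a + b) / 2 < b; linarith⟩
    obtain ⟨_, ⟨m, rfl⟩, hy⟩ := (hm (E c)).exists_mem_open (hE (Ioo a c ∩ Ioo (c - 1) c) (isOpen_Ioo.inter isOpen_Ioo))
      (by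
        have h3 : max a (c - 1) < c := max_lt hc.1 (by linarith)
        obtain ⟨y, h4, h5⟩ := exists_between h3
        exact ⟨E y, y, ⟨⟨(le_max_left _ _).trans_lt h4, h5⟩, ⟨(le_max_right _ _).trans_lt h4, h5⟩⟩, rfl⟩)
    obtain ⟨t, ⟨ht1, ht2⟩, ht3⟩ := hy
    obtain ⟨y, hy1, hy2⟩ := lft_zpow hF hl m c
    have h4 := hy2 Φ _ hΦF
    have h5 : E y = E t := hy1.trans ht3.symm
    obtain ⟨k, hk⟩ := E_eq_iff.1 h5
    have h6 : Φ y = Φ a + k := by
      rw [hk, Φ.map_add_int, hconst t ⟨ht1.1.le, (ht1.2.trans hc.2).le⟩]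
    rw [h6, hconst c ⟨hc.1.le, hc.2.le⟩] at h4
    have h7 : (k : ℝ) = m * hF.cdl.translationNumber := by linarith
    by_cases hm0 : m = 0
    · rw [hm0] at hy1
      have h8 : E t = E c := by rw [← h5]; exact hy1
      obtain ⟨j, hj⟩ := E_eq_iff.1 h8
      have h9 : (j : ℝ) < 0 := by linarith [ht2.2]
      have h10 : (-1 : ℝ) < j := by linarith [ht2.1]
      have h9' : j < 0 := by exact_mod_cast h9
      have h10' : -1 < j := by exact_mod_cast h10
      omega
    · apply hτ
      refine ⟨(k : ℚ) / m, ?_⟩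
      have h8 : (m : ℝ) ≠ 0 := by exact_mod_cast hm0
      push_cast
      rw [h7]
      field_simp
  exact ⟨Φ, ⟨Φ.monotone.continuous_of_denseRange
    (DenDAux.denseRange hF.surj hτ hΦF Φ.map_add_int), hst, Φ.map_add_one⟩, hΦF⟩

/-- Minimal homeomorphisms are conjugate to rotations, measurably. -/
theorem rotM : ∃ α : H → ℝ, Measurable α ∧ ∀ h : H, Mn h →
    Irrational (α h) ∧ 0 < α h ∧ α h < 1 / 2 ∧ Cj h (mulC (E (α h))) := by
  obtain ⟨τ, hτm, hτ⟩ := exists_tau
  have ht : Measurable fun h : H => Int.fract (τ h) := measurable_fract.comp hτm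
  refine ⟨fun h => min (Int.fract (τ h)) (1 - Int.fract (τ h)), ht.min (measurable_const.sub ht), ?_⟩
  intro h hm
  have hp := hm.not_per
  have hpos : Pos (lf h) := by
    rcases (lf_spec h).1 with h1 | h1
    · exact h1
    · exact absurd (per_of_neg h1) hp
  have hl : Lft h (lf h) := (lf_spec h).2.1
  have hirr : Irrational hpos.cdl.translationNumber := irrational_of_not_per hpos hl hp
  obtain ⟨Ψ, hΨ, hΨF⟩ := mn_semi hpos hl hm hirr
  rw [← hτ h hpos] at hirr hΨF
  set t := τ h with ht'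
  have hρ := RotAAux.irrational_fract hirr
  have h0 : 0 < Int.fract t := lt_of_le_of_ne (Int.fract_nonneg t) (fun h => hρ ⟨0, by rw [← h]; simp⟩)
  have h1 : Int.fract t < 1 := Int.fract_lt_one t
  have hne : Int.fract t ≠ 1 / 2 := fun h => hρ ⟨1 / 2, by rw [h]; push_cast; ring⟩
  rcases lt_or_gt_of_ne hne with h2 | h2
  · have hmin : min (Int.fract t) (1 - Int.fract t) = Int.fract t := min_eq_left (by linarith)
    show Irrational (min (Int.fract t) (1 - Int.fract t)) ∧ 0 < min (Int.fract t) (1 - Int.fract t) ∧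
      min (Int.fract t) (1 - Int.fract t) < 1 / 2 ∧ Cj h (mulC (E (min (Int.fract t) (1 - Int.fract t))))
    rw [hmin]
    exact ⟨hρ, h0, h2, cj_of_lift hl (RotAAux.lft_fract t) (Or.inl hΨ) hΨF⟩
  · have hmin : min (Int.fract t) (1 - Int.fract t) = 1 - Int.fract t := min_eq_right (by linarith)
    show Irrational (min (Int.fract t) (1 - Int.fract t)) ∧ 0 < min (Int.fract t) (1 - Int.fract t) ∧
      min (Int.fract t) (1 - Int.fract t) < 1 / 2 ∧ Cj h (mulC (E (min (Int.fract t) (1 - Int.fract t))))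
    rw [hmin]
    refine ⟨?_, by linarith, by linarith, cj_of_lift hl (RotAAux.lft_one_sub_fract t) (Or.inr hΨ.neg) ?_⟩
    · have := hρ.ratCast_sub 1
      simpa using this
    · intro x
      show -Ψ (lf h x) = -Ψ x - t
      rw [hΨF]
      ring

/-- The homeomorphisms which are conjugate to smooth diffeomorphisms. -/
def Sm (h : H) : Prop := Per h ∨ Mn h

theorem measurableSet_sm : MeasurableSet {h : H | Sm h} := measurableSet_per.union measurableSet_mn

theorem sm_of_cj {f g : H} (h : Cj f g) (hf : Sm f) : Sm g :=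
  hf.imp (fun h1 => h.per h1) (fun h1 => mn_of_cj h h1)

/-- A measurable realisation by smooth diffeomorphisms. -/
theorem realizeM : ∃ s : H → Dif, Measurable s ∧ ∀ h : H, Sm h → Cj h (s h) := by
  classical
  obtain ⟨s, hs, hsc⟩ := realize
  obtain ⟨α, hα, hαc⟩ := rotM
  refine ⟨fun h => if Per h then s h else mulC (E (α h)), ?_, fun h hh => ?_⟩
  · exact Measurable.ite measurableSet_per hs (RotAAux.measurable_rot.comp hα)
  · by_cases hp : Per h
    · simp only [if_pos hp]
      exact hsc h hp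
    · simp only [if_neg hp]
      rcases hh with hh | hh
      · exact absurd hh hp
      · exact (hαc h hh).2.2.2

end Pool.Agent.CIM
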