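import Pool.Agent.Lib.CIM.Ret
import Pool.Agent.Lib.CIM.RotM

/-!
# CIM.Rlz: realisation by smooth homeomorphisms
-/

set_option autoImplicit false

open Set
open scoped ContDiff Manifold

namespace Pool.Agent.CIM

open Pool.Agent.CIR

variable {n : ℕ}

open Classical in
/-- The least element of the cycle of `i`. -/
noncomputable def lst (σ : Equiv.Perm (Fin n)) (i : Fin n) : Fin n :=
  (Finset.univ.filter fun j => σ.SameCycle i j).min'
    ⟨i, Finset.mem_filter.2 ⟨Finset.mem_univ _, Equiv.Perm.SameCycle.refl σ i⟩⟩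

theorem lst_mem (σ : Equiv.Perm (Fin n)) (i : Fin n) : σ.SameCycle i (lst σ i) := by
  classical
  have h := (Finset.univ.filter fun j => σ.SameCycle i j).min'_mem
    ⟨i, Finset.mem_filter.2 ⟨Finset.mem_univ _, Equiv.Perm.SameCycle.refl σ i⟩⟩
  exact (Finset.mem_filter.1 h).2

theorem lst_congr (σ : Equiv.Perm (Fin n)) {i j : Fin n} (h : σ.SameCycle i j) : lst σ i = lst σ j := by
  unfold lst
  congr 1
  ext k
  simp only [Finset.mem_filter, Finset.mem_univ, true_and]
  exact ⟨fun h1 => h.symm.trans h1, fun h1 => h.trans h1⟩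

theorem lst_apply (σ : Equiv.Perm (Fin n)) (i : Fin n) : lst σ (σ i) = lst σ i :=
  (lst_congr σ ((Equiv.Perm.SameCycle.refl σ i).apply_right)).symm

theorem lst_lst (σ : Equiv.Perm (Fin n)) (i : Fin n) : lst σ (lst σ i) = lst σ i :=
  (lst_congr σ (lst_mem σ i)).symm

theorem exists_jj (σ : Equiv.Perm (Fin n)) (i : Fin n) : ∃ j : ℕ, (σ ^ j) (lst σ i) = i := by
  obtain ⟨j, _, hj⟩ := (lst_mem σ i).symm.exists_pow_eq'
  exact ⟨j, hj⟩

open Classical in
/-- The distance to the least element of the cycle. -/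
noncomputable def jj (σ : Equiv.Perm (Fin n)) (i : Fin n) : ℕ := Nat.find (exists_jj σ i)

theorem jj_spec (σ : Equiv.Perm (Fin n)) (i : Fin n) : (σ ^ jj σ i) (lst σ i) = i := by
  classical
  exact Nat.find_spec (exists_jj σ i)

theorem jj_min (σ : Equiv.Perm (Fin n)) (i : Fin n) {j : ℕ} (hj : (σ ^ j) (lst σ i) = i) : jj σ i ≤ j := by
  classical
  exact Nat.find_min' (exists_jj σ i) hj

theorem jj_lst {σ : Equiv.Perm (Fin n)} {i : Fin n} (h : i = lst σ i) : jj σ i = 0 := by
  have h1 := jj_min σ i (j := 0) (by rw [← h]; rfl)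
  omega

theorem jj_succ {σ : Equiv.Perm (Fin n)} {i : Fin n} (h : σ i ≠ lst σ i) : jj σ (σ i) = jj σ i + 1 := by
  have h1 : (σ ^ jj σ (σ i)) (lst σ (σ i)) = σ i := jj_spec σ (σ i)
  rw [lst_apply] at h1
  apply le_antisymm
  · apply jj_min
    rw [lst_apply, pow_succ']
    show σ ((σ ^ jj σ i) (lst σ i)) = σ i
    rw [jj_spec]
  · rcases Nat.eq_zero_or_pos (jj σ (σ i)) with h2 | h2
    · rw [h2] at h1
      exact absurd h1.symm h
    · obtain ⟨j, hj⟩ := Nat.exists_eq_add_of_lt h2
      have h3 : jj σ (σ i) = j + 1 := by omega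
      rw [h3, pow_succ'] at h1
      have h4 : (σ ^ j) (lst σ i) = i := σ.injective h1
      have := jj_min σ i h4
      omega

theorem jj_last {σ : Equiv.Perm (Fin n)} {i : Fin n} (h : σ i = lst σ i) : jj σ i + 1 = kk σ (lst σ i) := by
  have h1 : (σ ^ (jj σ i + 1)) (lst σ i) = lst σ i := by
    rw [pow_succ']
    show σ ((σ ^ jj σ i) (lst σ i)) = _
    rw [jj_spec, h]
  have h2 : kk σ (lst σ i) ∣ jj σ i + 1 := by
    apply Function.IsPeriodicPt.minimalPeriod_dvd
    show σ^[_] _ = _
    rw [← Equiv.Perm.coe_pow, h1]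
  have h3 : jj σ i < kk σ (lst σ i) := by
    have h4 : (σ ^ (jj σ i % kk σ (lst σ i))) (lst σ i) = i := by
      have h5 := jj_spec σ i
      rw [Equiv.Perm.coe_pow] at h5 ⊢
      unfold kk
      rw [Function.iterate_mod_minimalPeriod_eq, h5]
    exact (jj_min σ i h4).trans_lt (Nat.mod_lt _ (kk_pos _ _))
  exact le_antisymm h3 (Nat.le_of_dvd (Nat.succ_pos _) h2)

open Classical in
/-- The smooth realisation. -/
noncomputable def rl (s : H → Dif) (h : HX n) (i : Fin n) : Dif :=
  if sg h i = lst (sg h) i then s (ret h (lst (sg h) i)) else idD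

theorem hm_idD : hm idD = 1 := rfl

theorem cj_rl {s : H → Dif} {h : HX n} (hs : ∀ i, Cj (ret h i) (s (ret h i))) :
    ∃ g : HX n, g * h * g⁻¹ = mk (sg h) fun i => hm (rl s h i) := by
  have hth : ∀ i, ∃ θ : H, θ * ret h i * θ⁻¹ = hm (s (ret h i)) := fun i => cj_iff.1 (hs i)
  choose θ hθ using hth
  let χ : Fin n → H := fun i => θ (lst (sg h) i) * (cp (h ^ jj (sg h) i) (lst (sg h) i))⁻¹
  have key : ∀ i, χ (sg h i) * cp h i * (χ i)⁻¹ = hm (rl s h i) := by
    intro i
    have h0 : cp (h ^ (jj (sg h) i + 1)) (lst (sg h) i) = cp h i * cp (h ^ jj (sg h) i) (lst (sg h) i) := by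
      rw [pow_succ', cp_mul, sg_pow, jj_spec]
    show θ (lst (sg h) (sg h i)) * (cp (h ^ jj (sg h) (sg h i)) (lst (sg h) (sg h i)))⁻¹ * cp h i *
      (θ (lst (sg h) i) * (cp (h ^ jj (sg h) i) (lst (sg h) i))⁻¹)⁻¹ = _
    rw [lst_apply]
    by_cases h1 : sg h i = lst (sg h) i
    · have h2 : jj (sg h) (sg h i) = 0 := jj_lst (by rw [lst_apply, h1])
      rw [h2, pow_zero, cp_one]
      unfold rl
      rw [if_pos h1, ← hθ]
      have h3 : ret h (lst (sg h) i) = cp h i * cp (h ^ jj (sg h) i) (lst (sg h) i) := by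
        rw [← h0, jj_last h1]
        rfl
      rw [h3]
      group
    · rw [jj_succ h1, h0]
      unfold rl
      rw [if_neg h1, hm_idD]
      group
  refine ⟨mk 1 χ, ?_⟩
  have hsg : sg (mk 1 χ * h * (mk 1 χ)⁻¹) = sg h := by
    rw [sg_mul, sg_mul, sg_inv, sg_mk]
    simp
  apply ext_hx
  · rw [hsg, sg_mk]
  · intro i
    rw [cp_mk, ← key, cp_mul, cp_mul]
    have h1 : sg (mk 1 χ)⁻¹ i = i := by rw [sg_inv, sg_mk]; rfl
    have h2 : cp (mk 1 χ)⁻¹ i = (χ i)⁻¹ := by
      have h3 := cp_inv (mk 1 χ) i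
      rw [sg_mk, cp_mk] at h3
      exact h3
    rw [h1, h2, cp_mk]

theorem measurable_sel {F : HX n → Fin n} (hF : Measurable F) : Measurable fun h : HX n => ret h (F h) := by
  have h4 : Measurable fun p : Fin n × HX n => ret p.2 p.1 :=
    measurable_from_prod_countable_right fun k => measurable_ret k
  have h5 : Measurable fun h : HX n => (F h, h) := hF.prodMk measurable_id
  exact Measurable.comp (g := fun p : Fin n × HX n => ret p.2 p.1) (f := fun h : HX n => (F h, h)) h4 h5

theorem measurable_rl {s : H → Dif} (hs : Measurable s) (i : Fin n) : Measurable fun h : HX n => rl s h i := by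
  classical
  have h1 : MeasurableSet {h : HX n | sg h i = lst (sg h) i} := by
    have h2 : MeasurableSet {σ : Equiv.Perm (Fin n) | σ i = lst σ i} := MeasurableSpace.measurableSet_top
    exact measurable_sg h2
  have h3 : Measurable fun h : HX n => lst (sg h) i :=
    Measurable.comp (g := fun σ : Equiv.Perm (Fin n) => lst σ i) measurable_from_top measurable_sg
  have h5 : Measurable fun h : HX n => s (ret h (lst (sg h) i)) := hs.comp (measurable_sel h3)
  have h6 : Measurable fun h : HX n => if sg h i = lst (sg h) i then s (ret h (lst (sg h) i)) else idD :=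
    Measurable.ite h1 h5 measurable_const
  have h7 : (fun h : HX n => rl s h i) = fun h : HX n => if sg h i = lst (sg h) i then s (ret h (lst (sg h) i)) else idD := by
    funext h
    unfold rl
    rfl
  rw [h7]
  exact h6

end Pool.Agent.CIM
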