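import Pool.Agent.Lib.CIM.Defs

/-!
# CIM.Top: the homeomorphisms of a finite disjoint union of circles form a Polish group
-/

set_option autoImplicit false

open Set
open scoped ContDiff Manifold

namespace Pool.Agent.CIM

open Pool.Agent.CIR

variable {n : ℕ}

namespace TopAux

/-- The map `h ↦ (h, h⁻¹)`. -/
noncomputable def emb (h : HX n) : C(X n, X n) × C(X n, X n) :=
  ((⟨h, h.continuous⟩ : C(X n, X n)), (⟨h.symm, h.symm.continuous⟩ : C(X n, X n)))

theorem emb_inducing : Topology.IsInducing (emb (n := n)) := ⟨rfl⟩

theorem continuous_emb : Continuous (emb (n := n)) := emb_inducing.continuous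

theorem emb_injective : Function.Injective (emb (n := n)) := by
  intro h k hk
  have h1 : (emb h).1 = (emb k).1 := by rw [hk]
  exact Homeomorph.ext fun z => DFunLike.congr_fun h1 z

theorem continuous_fst_emb : Continuous fun h : HX n => (⟨h, h.continuous⟩ : C(X n, X n)) :=
  continuous_fst.comp continuous_emb

theorem continuous_snd_emb :
    Continuous fun h : HX n => (⟨h.symm, h.symm.continuous⟩ : C(X n, X n)) :=
  continuous_snd.comp continuous_emb

theorem range_emb : Set.range (emb (n := n)) = {p : C(X n, X n) × C(X n, X n) |
    p.1.comp p.2 = ContinuousMap.id (X n) ∧ p.2.comp p.1 = ContinuousMap.id (X n)} := by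
  ext p
  constructor
  · rintro ⟨h, rfl⟩
    exact ⟨ContinuousMap.ext fun z => h.apply_symm_apply z, ContinuousMap.ext fun z => h.symm_apply_apply z⟩
  · rintro ⟨h1, h2⟩
    refine ⟨⟨⟨p.1, p.2, fun z => DFunLike.congr_fun h2 z, fun z => DFunLike.congr_fun h1 z⟩,
      p.1.continuous, p.2.continuous⟩, ?_⟩
    rfl

theorem isClosed_range : IsClosed (Set.range (emb (n := n))) := by
  rw [range_emb]
  refine IsClosed.inter ?_ ?_
  · exact isClosed_eq (continuous_fst.compCM continuous_snd) continuous_const
  · exact isClosed_eq (continuous_snd.compCM continuous_fst) continuous_const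

end TopAux

open TopAux

theorem isTopologicalGroupX : IsTopologicalGroup (HX n) := by
  have h1 : Continuous fun p : HX n × HX n => p.1 * p.2 := by
    refine emb_inducing.continuous_iff.2 ?_
    refine Continuous.prodMk ?_ ?_
    · exact (continuous_fst_emb.comp continuous_fst).compCM (continuous_fst_emb.comp continuous_snd)
    · exact (continuous_snd_emb.comp continuous_snd).compCM (continuous_snd_emb.comp continuous_fst)
  have h2 : Continuous fun p : HX n => p⁻¹ := by
    refine emb_inducing.continuous_iff.2 ?_
    exact Continuous.prodMk continuous_snd_emb continuous_fst_emb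
  exact { continuous_mul := h1, continuous_inv := h2 }

theorem polish_maps : PolishSpace C(X n, X n) := by
  let _ := TopologicalSpace.metrizableSpaceMetric (X n)
  have h1 : TopologicalSpace.IsCompletelyMetrizableSpace C(X n, X n) := by
    refine @MetricSpace.toIsCompletelyMetrizableSpace _ (ContinuousMap.instMetricSpace (X n)) ?_
    exact inferInstanceAs
      (@CompleteSpace C(X n, X n) ContinuousMap.compactConvergenceUniformSpace)
  exact inferInstance

theorem polishSpaceX : PolishSpace (HX n) := by
  have h2 : PolishSpace C(X n, X n) := polish_maps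
  have h3 : PolishSpace (C(X n, X n) × C(X n, X n)) := inferInstance
  exact Topology.IsClosedEmbedding.polishSpace
    (f := emb) ⟨⟨emb_inducing, emb_injective⟩, isClosed_range⟩

/-- The evaluation is jointly continuous. -/
theorem continuous_applyX : Continuous fun p : HX n × X n => p.1 p.2 := by
  have h1 : Continuous fun p : C(X n, X n) × X n => p.1 p.2 := continuous_eval
  exact h1.comp ((continuous_fst_emb.comp continuous_fst).prodMk continuous_snd)

theorem measurable_HX_iff {Ω : Type*} [MeasurableSpace Ω] {g : Ω → HX n} :
    Measurable g ↔ ∀ x, Measurable fun o => g o x := by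
  have hcx : ∀ x : X n, Continuous fun h : HX n => h x := fun x =>
    continuous_applyX.comp (continuous_id.prodMk continuous_const)
  constructor
  · intro hg x
    exact (hcx x).measurable.comp hg
  · intro hg
    have := polishSpaceX (n := n)
    rcases isEmpty_or_nonempty (X n) with he | he
    · have hs : Subsingleton (HX n) := ⟨fun a b => Homeomorph.ext fun x => (he.false x).elim⟩
      exact measurable_of_subsingleton_codomain g
    let D : ℕ → X n := TopologicalSpace.denseSeq (X n)
    let ev : HX n → (ℕ → X n) := fun h k => h (D k)
    have hc : Continuous ev := continuous_pi fun k => hcx (D k)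
    have hi : Function.Injective ev := by
      intro h k hk
      have h1 : (⇑h : X n → X n) = ⇑k := by
        apply (TopologicalSpace.denseRange_denseSeq (X n)).equalizer h.continuous k.continuous
        funext m
        exact congrFun hk m
      exact DFunLike.coe_injective h1
    have he : MeasurableEmbedding ev := hc.measurableEmbedding hi
    rw [← he.measurable_comp_iff]
    exact measurable_pi_iff.2 fun m => hg (D m)

theorem measurable_mk {Ω : Type*} [MeasurableSpace Ω] {σ : Ω → Equiv.Perm (Fin n)} {f : Ω → Fin n → H}
    (hσ : Measurable σ) (hf : ∀ i, Measurable fun o => f o i) : Measurable fun o => mk (σ o) (f o) := by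
  rw [measurable_HX_iff]
  rintro ⟨i, z⟩
  have h1 : Measurable fun o => σ o i := (measurable_from_top (f := fun s : Equiv.Perm (Fin n) => s i)).comp hσ
  exact h1.prodMk (measurable_H_iff.1 (hf i) z)

theorem measurable_cp (i : Fin n) : Measurable fun h : HX n => cp h i := by
  rw [measurable_H_iff]
  intro z
  have h1 : Measurable fun h : HX n => h (i, z) := measurable_HX_iff.1 measurable_id _
  have h2 : (fun h : HX n => cp h i z) = fun h => (h (i, z)).2 := by
    funext h
    rw [hx_apply]
  rw [h2]
  exact measurable_snd.comp h1

theorem measurable_sg : Measurable (sg (n := n)) := by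
  have h0 : ∀ i, Measurable fun h : HX n => sg h i := by
    intro i
    have h1 : Measurable fun h : HX n => h (i, 1) := measurable_HX_iff.1 measurable_id _
    have h2 : (fun h : HX n => sg h i) = fun h => (h (i, 1)).1 := by
      funext h
      rw [hx_apply]
    rw [h2]
    exact measurable_fst.comp h1
  have h3 : ∀ s : Equiv.Perm (Fin n), MeasurableSet (sg ⁻¹' {s}) := by
    intro s
    have h4 : sg ⁻¹' {s} = ⋂ i, {h : HX n | sg h i = s i} := by
      ext h
      simp only [mem_preimage, mem_singleton_iff, mem_iInter, mem_ofPred_eq]
      exact ⟨fun h5 i => by rw [h5], fun h5 => Equiv.ext h5⟩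
    rw [h4]
    exact MeasurableSet.iInter fun i => h0 i (measurableSet_singleton _)
  exact measurable_to_countable' h3

end Pool.Agent.CIM
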