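import Pool.Agent.Lib.CIM.Cht

/-!
# CIM.Uni: smooth parametrisation of a closed curve in a closed one-manifold
-/

set_option autoImplicit false

open Set Filter Topology
open scoped ContDiff Manifold

namespace Pool.Agent.CIM

open Pool.Agent.CIR

/-- The inverse of a function with nonzero derivative is smooth. -/
theorem contDiffAt_inv {g v : ℝ → ℝ} {y₀ : ℝ} (hg : ContDiffAt ℝ ∞ g (v y₀)) (hd : deriv g (v y₀) ≠ 0)
    (hv : ContinuousAt v y₀) (hgv : ∀ᶠ y in 𝓝 y₀, g (v y) = y) : ContDiffAt ℝ ∞ v y₀ := by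
  have h0 : g (v y₀) = y₀ := hgv.self_of_nhds
  have hdd : HasDerivAt g (deriv g (v y₀)) (v y₀) := (hg.differentiableAt (by simp)).hasDerivAt
  have hf' : HasFDerivAt g ((ContinuousLinearEquiv.unitsEquivAut ℝ (Units.mk0 (deriv g (v y₀)) hd) : ℝ ≃L[ℝ] ℝ) : ℝ →L[ℝ] ℝ) (v y₀) := by
    refine hdd.hasFDerivAt.congr_fderiv ?_
    ext
    simp
  have h1 := hg.to_localInverse hf' (by simp)
  have h2 : ∀ᶠ x in 𝓝 (v y₀), hg.localInverse hf' (by simp) (g x) = x :=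
    (hg.hasStrictFDerivAt' hf' (by simp)).eventually_left_inverse
  have h3 : ∀ᶠ y in 𝓝 y₀, hg.localInverse hf' (by simp) (g (v y)) = v y := hv.eventually h2
  rw [h0] at h1
  refine h1.congr_of_eventuallyEq ?_
  filter_upwards [h3, hgv] with y h4 h5
  rw [← h4, h5]

variable {M : Type*} [TopologicalSpace M] [ChartedSpace E1 M] [IsManifold 𝓘(ℝ, E1) ∞ M] [T2Space M] [CompactSpace M]

theorem uni {p : ℝ → M} (hp : Continuous p) (hper : ∀ x, p (x + 1) = p x)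
    (hinj : ∀ x y, x < y → y < x + 1 → p x ≠ p y) :
    ∃ (G : ℝ → ℝ) (hG : Pos G),
      (∀ x₀, ContMDiffAt 𝓘(ℝ, ℝ) 𝓘(ℝ, E1) ∞ (fun y => p (hG.oi.symm y)) (G x₀)) ∧
      ∀ x₀, ∃ ψ : M → ℝ, ContMDiffAt 𝓘(ℝ, E1) 𝓘(ℝ, ℝ) ∞ ψ (p x₀) ∧ ∀ᶠ x in 𝓝 x₀, ψ (p x) = G x := by
  obtain ⟨N, F, hF, hFe, hFi⟩ := exists_embedding_euclidean_of_compact (I := 𝓘(ℝ, E1)) (M := M)
  have hFinj : Function.Injective F := hFe.injective
  have hloc := exists_loc hF hFi hp hinj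
  obtain ⟨G, hG, hGl⟩ := glo (γ := fun x => F (p x)) (fun x => congrArg F (hper x))
    (fun x y h1 h2 h3 => hinj x y h1 h2 (hFinj h3)) fun x₀ => by
      obtain ⟨a, b, s, h1, _, _, _, h2⟩ := hloc x₀
      exact ⟨a, b, _, _, h1, h2⟩
  refine ⟨G, hG, fun x₀ => ?_, fun x₀ => ?_⟩
  · obtain ⟨a, b, s, hx₀, hs, hss, hsrc, hl⟩ := hloc x₀
    obtain ⟨g, hg⟩ := hGl a b _ _ hl
    set c := chartAt E1 (p x₀) with hc
    have hsymm : hG.oi.symm (G x₀) = x₀ := hG.oi.symm_apply_apply x₀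
    have hcs : Continuous hG.oi.symm := hG.oi.symm.continuous
    let v : ℝ → ℝ := fun y => s * co (c (p (hG.oi.symm y)))
    have hcont : ContinuousAt v (G x₀) := by
      have h1 : ContinuousAt (fun x => s * co (c (p x))) (hG.oi.symm (G x₀)) := by
        rw [hsymm]
        exact hl.cont.continuousAt (Ioo_mem_nhds hx₀.1 hx₀.2)
      exact ContinuousAt.comp (f := hG.oi.symm) (g := fun x => s * co (c (p x))) h1 hcs.continuousAt
    have hnb : ∀ᶠ y in 𝓝 (G x₀), hG.oi.symm y ∈ Ioo a b := by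
      apply hcs.continuousAt.eventually_mem
      rw [hsymm]
      exact Ioo_mem_nhds hx₀.1 hx₀.2
    have hvx : v (G x₀) = s * co (c (p x₀)) := by
      show s * co (c (p (hG.oi.symm (G x₀)))) = _
      rw [hsymm]
    have hsm : ContDiffAt ℝ ∞ v (G x₀) := by
      refine contDiffAt_inv (g := g) ?_ ?_ hcont ?_
      · rw [hvx]
        exact (hg x₀ hx₀).2.1
      · rw [hvx]
        exact (hg x₀ hx₀).2.2
      · filter_upwards [hnb] with y hy
        have h1 := (hg _ hy).1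
        have h2 : G (hG.oi.symm y) = y := hG.oi.apply_symm_apply y
        rw [h2] at h1
        exact h1.symm
    have htar : cv (s * v (G x₀)) ∈ c.target := by
      rw [hvx, ← mul_assoc, hss, one_mul, cv_co]
      exact c.map_source (mem_chart_source E1 (p x₀))
    have h1 : ContMDiffAt 𝓘(ℝ, ℝ) 𝓘(ℝ, E1) ∞ (fun y => qq (p x₀) s (v y)) (G x₀) := by
      have h2 := contMDiffAt_qq (p x₀) s htar
      exact ContMDiffAt.comp (g := qq (p x₀) s) (f := v) (G x₀) h2 (contMDiffAt_iff_contDiffAt.2 hsm)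
    refine h1.congr_of_eventuallyEq ?_
    filter_upwards [hnb] with y hy
    show p (hG.oi.symm y) = c.symm (cv (s * (s * co (c (p (hG.oi.symm y))))))
    rw [← mul_assoc, hss, one_mul, cv_co, c.left_inv (hsrc _ hy)]
  · obtain ⟨a, b, s, hx₀, hs, hss, hsrc, hl⟩ := hloc x₀
    obtain ⟨g, hg⟩ := hGl a b _ _ hl
    refine ⟨fun m => g (s * co ((chartAt E1 (p x₀)) m)), ?_, ?_⟩
    · have h1 : ContMDiffAt 𝓘(ℝ, E1) 𝓘(ℝ, ℝ) ∞ (fun m => co ((chartAt E1 (p x₀)) m)) (p x₀) :=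
        contMDiffAt_cc (p x₀) (mem_chart_source E1 (p x₀))
      have h2 : ContMDiffAt 𝓘(ℝ, ℝ) 𝓘(ℝ, ℝ) ∞ (fun t => g (s * t)) (co ((chartAt E1 (p x₀)) (p x₀))) := by
        rw [contMDiffAt_iff_contDiffAt]
        exact ContDiffAt.comp _ (hg x₀ hx₀).2.1 (contDiffAt_const.mul contDiffAt_id)
      exact ContMDiffAt.comp (g := fun t => g (s * t)) (f := fun m => co ((chartAt E1 (p x₀)) m)) (p x₀) h2 h1
    · filter_upwards [Ioo_mem_nhds hx₀.1 hx₀.2] with x hx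
      exact (hg x hx).1.symm

end Pool.Agent.CIM
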