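import Pool.Agent.Lib.P9Q.K7

/-!
# CIM.Zro: dimension zero
-/

set_option autoImplicit false

open Set Filter Topology
open scoped ContDiff Manifold

namespace Pool.Agent.CIM

/-- The zero-dimensional Euclidean space. -/
abbrev E0 := EuclideanSpace ℝ (Fin 0)

variable {M : Type*} [TopologicalSpace M] [ChartedSpace E0 M]

theorem smooth0 (f : M → M) : ContMDiff 𝓘(ℝ, E0) 𝓘(ℝ, E0) ∞ f := by
  intro m
  have := Pool.Agent.Lib.P9Q.discrete_of_charted (M := M)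
  have h1 : ContMDiffAt 𝓘(ℝ, E0) 𝓘(ℝ, E0) ∞ (fun _ : M => f m) m := contMDiffAt_const
  refine h1.congr_of_eventuallyEq ?_
  have h2 : ({m} : Set M) ∈ 𝓝 m := (isOpen_discrete {m}).mem_nhds rfl
  filter_upwards [h2] with x hx
  rw [mem_singleton_iff.1 hx]

/-- A permutation as a diffeomorphism. -/
def dd (π : Equiv.Perm M) : M ≃ₘ⟮𝓘(ℝ, E0), 𝓘(ℝ, E0)⟯ M where
  toEquiv := π
  contMDiff_toFun := smooth0 π
  contMDiff_invFun := smooth0 π.symm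

theorem dd_apply (π : Equiv.Perm M) (m : M) : dd π m = π m := rfl

theorem main0 [T2Space M] [CompactSpace M] (τ : TopologicalSpace (M ≃ₘ⟮𝓘(ℝ, E0), 𝓘(ℝ, E0)⟯ M))
    (hτ : @PolishSpace _ τ) :
    ∃ (G : Type) (_ : Group G) (_ : TopologicalSpace G) (_ : IsTopologicalGroup G)
      (_ : PolishSpace G) (_ : MulAction G (M ≃ₘ⟮𝓘(ℝ, E0), 𝓘(ℝ, E0)⟯ M)),
      (@Measurable (G × (M ≃ₘ⟮𝓘(ℝ, E0), 𝓘(ℝ, E0)⟯ M)) (M ≃ₘ⟮𝓘(ℝ, E0), 𝓘(ℝ, E0)⟯ M)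
        (@Prod.instMeasurableSpace G _ (borel G) (@borel _ τ)) (@borel _ τ)
        fun p => p.1 • p.2) ∧
      ∀ f g : M ≃ₘ⟮𝓘(ℝ, E0), 𝓘(ℝ, E0)⟯ M, (∃ h : M ≃ₜ M, ∀ m, h (f m) = g (h m)) ↔ ∃ a : G, a • f = g := by
  have hd := Pool.Agent.Lib.P9Q.discrete_of_charted (M := M)
  have hf : Finite M := finite_of_compact_of_discrete
  obtain ⟨k, ⟨ε⟩⟩ := Finite.exists_equiv_fin M
  let π : Equiv.Perm (Fin k) → Equiv.Perm M := fun σ => (ε.trans σ).trans ε.symm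
  have hπ : ∀ σ m, π σ m = ε.symm (σ (ε m)) := fun σ m => rfl
  let T : Equiv.Perm (Fin k) → (M ≃ₘ⟮𝓘(ℝ, E0), 𝓘(ℝ, E0)⟯ M) → (M ≃ₘ⟮𝓘(ℝ, E0), 𝓘(ℝ, E0)⟯ M) :=
    fun σ f => dd (((π σ).symm.trans f.toEquiv).trans (π σ))
  have hT : ∀ σ f m, T σ f m = ε.symm (σ (ε (f (ε.symm (σ.symm (ε m)))))) := fun σ f m => rfl
  let act : MulAction (Equiv.Perm (Fin k)) (M ≃ₘ⟮𝓘(ℝ, E0), 𝓘(ℝ, E0)⟯ M) :=
    { smul := T
      one_smul := fun f => by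
        ext m
        show T 1 f m = f m
        rw [hT]
        have h1 : (1 : Equiv.Perm (Fin k)).symm (ε m) = ε m := rfl
        rw [h1]
        simp
      mul_smul := fun σ ρ f => by
        ext m
        show T (σ * ρ) f m = T σ (T ρ f) m
        rw [hT, hT, hT]
        simp [Equiv.Perm.mul_def] }
  let tG : TopologicalSpace (Equiv.Perm (Fin k)) := ⊥
  have hG : DiscreteTopology (Equiv.Perm (Fin k)) := ⟨rfl⟩
  refine ⟨Equiv.Perm (Fin k), inferInstance, tG, inferInstance, inferInstance, act, ?_, fun f g => ?_⟩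
  · let _ : MeasurableSpace (Equiv.Perm (Fin k)) := borel _
    have hb1 : BorelSpace (Equiv.Perm (Fin k)) := ⟨rfl⟩
    let _ : MeasurableSpace (M ≃ₘ⟮𝓘(ℝ, E0), 𝓘(ℝ, E0)⟯ M) := @borel _ τ
    have hb2 : BorelSpace (M ≃ₘ⟮𝓘(ℝ, E0), 𝓘(ℝ, E0)⟯ M) := ⟨rfl⟩
    have hfin : Finite (M ≃ₘ⟮𝓘(ℝ, E0), 𝓘(ℝ, E0)⟯ M) :=
      Finite.of_injective (fun f : M ≃ₘ⟮𝓘(ℝ, E0), 𝓘(ℝ, E0)⟯ M => (f : M → M)) DFunLike.coe_injective
    exact measurable_of_countable _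
  · constructor
    · rintro ⟨h, hh⟩
      refine ⟨(ε.symm.trans h.toEquiv).trans ε, ?_⟩
      ext m
      show T _ f m = g m
      rw [hT]
      show ε.symm (ε (h (ε.symm (ε (f (ε.symm (ε (h.symm (ε.symm (ε m)))))))))) = g m
      simp [hh]
    · rintro ⟨σ, rfl⟩
      refine ⟨⟨π σ, continuous_of_discreteTopology, continuous_of_discreteTopology⟩, fun m => ?_⟩
      show π σ (f m) = T σ f (π σ m)
      rw [hT, hπ, hπ]
      simp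

end Pool.Agent.CIM
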